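import Mathlib

set_option autoImplicit false

open MeasureTheory FourierTransform Filter Topology
open scoped SchwartzMap ContDiff ENNReal

namespace Pool.Agent.H78Z.WO

/-- multiplication formula against a Schwartz function -/
theorem mul_formula (f : ℂ → ℂ) (hf : Integrable f) (g : 𝓢(ℂ, ℂ)) :
    ∫ x, (𝓕 g) x • f x = ∫ x, g x • FourierTransform.fourier f x := by
  have h3 := VectorFourier.integral_fourierIntegral_smul_eq_flip (L := innerₗ ℂ)
    (μ := (volume : Measure ℂ)) (ν := (volume : Measure ℂ))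
    Real.continuous_fourierChar continuous_inner g.integrable hf
  rw [flip_innerₗ] at h3
  exact h3

/-- uniqueness theorem for the Fourier transform on `L¹` -/
theorem fourier_uniq (f : ℂ → ℂ) (hf : Integrable f)
    (h : ∀ w, FourierTransform.fourier f w = 0) : f =ᵐ[volume] 0 := by
  apply ae_eq_zero_of_integral_contDiff_smul_eq_zero hf.locallyIntegrable
  intro g g_smooth g_cpt
  have hg₁ : HasCompactSupport (Complex.ofRealCLM ∘ g) := g_cpt.comp_left rfl
  have hg₂ : ContDiff ℝ ∞ (Complex.ofRealCLM ∘ g) := by fun_prop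
  set φ : 𝓢(ℂ, ℂ) := hg₁.toSchwartzMap hg₂ with hφ
  have h1 := mul_formula f hf (𝓕⁻ φ)
  rw [fourier_fourierInv_eq] at h1
  simp only [h, smul_zero, integral_zero] at h1
  have hφx : ∀ x, φ x = (g x : ℂ) := fun x => rfl
  simpa [hφx] using h1

/-- Plancherel for the Fourier integral of `L¹ ∩ L²` functions -/
theorem plancherel (f : ℂ → ℂ) (hf : Integrable f) (hf2 : MemLp f 2) :
    eLpNorm (FourierTransform.fourier f) 2 volume = eLpNorm f 2 volume := by
  obtain ⟨F2, hF2⟩ : ∃ F2 : Lp ℂ 2 (volume : Measure ℂ), F2 = hf2.toLp f := ⟨_, rfl⟩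
  obtain ⟨G, hG⟩ : ∃ G : Lp ℂ 2 (volume : Measure ℂ), G = 𝓕 F2 := ⟨_, rfl⟩
  have hF2ae : (F2 : ℂ → ℂ) =ᵐ[volume] f := by rw [hF2]; exact hf2.coeFn_toLp
  have key : ∀ g : 𝓢(ℂ, ℂ), ∫ x, g x • (G x) = ∫ x, g x • FourierTransform.fourier f x := by
    intro g
    have h1 : (𝓕 (F2 : 𝓢'(ℂ, ℂ))) g = ((𝓕 F2 : Lp ℂ 2 (volume : Measure ℂ)) : 𝓢'(ℂ, ℂ)) g := by
      rw [Lp.fourier_toTemperedDistribution_eq]
    rw [TemperedDistribution.fourier_apply, Lp.toTemperedDistribution_apply,
      Lp.toTemperedDistribution_apply, ← hG] at h1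
    rw [← h1]
    have h2 : ∫ x, (𝓕 g) x • F2 x = ∫ x, (𝓕 g) x • f x := by
      apply integral_congr_ae
      filter_upwards [hF2ae] with x hx
      rw [hx]
    rw [h2]
    exact mul_formula f hf g
  have hGae : (G : ℂ → ℂ) =ᵐ[volume] FourierTransform.fourier f := by
    have hcont : Continuous (FourierTransform.fourier f : ℂ → ℂ) :=
      VectorFourier.fourierIntegral_continuous Real.continuous_fourierChar continuous_inner hf
    apply ae_eq_of_integral_contDiff_smul_eq
    · exact (Lp.memLp G).locallyIntegrable (by norm_num)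
    · exact hcont.locallyIntegrable
    · intro g g_smooth g_cpt
      have hg₁ : HasCompactSupport (Complex.ofRealCLM ∘ g) := g_cpt.comp_left rfl
      have hg₂ : ContDiff ℝ ∞ (Complex.ofRealCLM ∘ g) := by fun_prop
      have := key (hg₁.toSchwartzMap hg₂)
      simpa using this
  have hnorm : eLpNorm G 2 volume = eLpNorm f 2 volume := by
    have h1 : ‖G‖ = ‖F2‖ := by rw [hG]; exact Lp.norm_fourier_eq F2
    have h2 : eLpNorm G 2 volume = eLpNorm F2 2 volume := by
      rw [Lp.norm_def, Lp.norm_def] at h1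
      exact (ENNReal.toReal_eq_toReal_iff' (Lp.eLpNorm_ne_top G) (Lp.eLpNorm_ne_top F2)).1 h1
    rw [h2]
    exact eLpNorm_congr_ae hF2ae
  rw [← hnorm, eLpNorm_congr_ae hGae]

theorem eLp_sq {X F : Type*} [MeasurableSpace X] [NormedAddCommGroup F] (μ : Measure X)
    (h : X → F) : eLpNorm h 2 μ ^ 2 = ∫⁻ z, ‖h z‖ₑ ^ 2 ∂μ := by
  rw [eLpNorm_eq_lintegral_rpow_enorm_toReal (by norm_num) (by norm_num)]
  simp only [ENNReal.toReal_ofNat, ENNReal.rpow_ofNat, one_div]
  rw [← ENNReal.rpow_natCast, ← ENNReal.rpow_mul]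
  norm_num

/-- the character `p ↦ exp (-2 π i ⟪p, w⟫)` -/
noncomputable def ch (w p : ℂ) : ℂ := (Real.fourierChar (-(inner ℝ p w)) : ℂ)

theorem ch_norm (w p : ℂ) : ‖ch w p‖ = 1 := by simp [ch]

theorem ch_cont (w : ℂ) : Continuous (ch w) := by
  unfold ch
  have := Real.continuous_fourierChar
  fun_prop

theorem ch_add (a b p : ℂ) : ch (a + b) p = ch a p * ch b p := by
  unfold ch
  rw [inner_add_right, neg_add, AddChar.map_add_eq_mul]
  simp

theorem ch_zero (p : ℂ) : ch 0 p = 1 := by simp [ch]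

theorem ch_neg (a p : ℂ) : ch (-a) p = (starRingEnd ℂ) (ch a p) := by
  unfold ch
  rw [inner_neg_right, ← Circle.coe_inv_eq_conj, ← AddChar.map_neg_eq_inv]

theorem fourier_eq_ch (f : ℂ → ℂ) (w : ℂ) :
    FourierTransform.fourier f w = ∫ p, ch w p * f p := by
  rw [Real.fourier_eq]
  simp [ch, Circle.smul_def]

end Pool.Agent.H78Z.WO
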