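import Pool.Agent.H78Z.WO.A

set_option autoImplicit false

open MeasureTheory FourierTransform Filter Topology
open scoped ENNReal NNReal InnerProductSpace

namespace Pool.Agent.H78Z.WO

theorem integrable_ch_mul {μ : Measure ℂ} (a : ℂ) {φ : ℂ → ℂ} (hφ : Integrable φ μ) :
    Integrable (fun p => ch a p * φ p) μ :=
  hφ.bdd_mul (c := 1) (ch_cont a).aestronglyMeasurable
    (Eventually.of_forall fun p => (ch_norm a p).le)

theorem quad_sum (φ : ℂ → ℂ) (hφ : Integrable φ) (s : Finset ℂ) (c : ℂ → ℂ) :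
    ∑ b ∈ s, ∑ a ∈ s, (starRingEnd ℂ) (c b) * c a * ∫ p, ch (a - b) p * φ p =
      ∫ p, ((‖∑ a ∈ s, c a * ch a p‖ ^ 2 : ℝ) : ℂ) * φ p := by
  have h1 : ∀ p, ((‖∑ a ∈ s, c a * ch a p‖ ^ 2 : ℝ) : ℂ) * φ p =
      ∑ b ∈ s, ∑ a ∈ s, (starRingEnd ℂ) (c b) * c a * (ch (a - b) p * φ p) := by
    intro p
    rw [Complex.ofReal_pow, ← Complex.conj_mul', map_sum, Finset.sum_mul_sum, Finset.sum_mul]
    refine Finset.sum_congr rfl fun b _ => ?_
    rw [Finset.sum_mul]
    refine Finset.sum_congr rfl fun a _ => ?_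
    rw [sub_eq_add_neg, ch_add, ch_neg, map_mul]
    ring
  simp_rw [h1]
  rw [integral_finsetSum]
  · refine Finset.sum_congr rfl fun b _ => ?_
    rw [integral_finsetSum]
    · refine Finset.sum_congr rfl fun a _ => ?_
      rw [integral_const_mul]
    · intro a _
      exact (integrable_ch_mul _ hφ).const_mul _
  · intro b _
    exact integrable_finsetSum _ fun a _ => (integrable_ch_mul _ hφ).const_mul _

theorem uniq_dens (ρ : ℂ → ℝ≥0) (hρ : Measurable ρ) (φ : ℂ → ℂ)
    (hφ : Integrable φ (volume.withDensity fun p => (ρ p : ℝ≥0∞)))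
    (h : ∀ a, ∫ p, ch a p * φ p ∂(volume.withDensity fun p => (ρ p : ℝ≥0∞)) = 0) :
    φ =ᵐ[volume.withDensity fun p => (ρ p : ℝ≥0∞)] 0 := by
  have h1 : Integrable (fun p => ρ p • φ p) :=
    (integrable_withDensity_iff_integrable_smul hρ).1 hφ
  have h2 := fourier_uniq _ h1 (fun w => by
    rw [fourier_eq_ch, ← h w, integral_withDensity_eq_integral_smul hρ]
    simp only [NNReal.smul_def, Complex.real_smul]
    congr 1
    ext p
    ring)
  rw [Filter.EventuallyEq, ae_withDensity_iff (by fun_prop)]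
  filter_upwards [h2] with p hp hne
  simp only [Pi.zero_apply, smul_eq_zero] at hp
  rcases hp with hp | hp
  · exact absurd (by simp [hp]) hne
  · simpa using hp

variable {H : Type*} [NormedAddCommGroup H] [InnerProductSpace ℂ H] [CompleteSpace H]

theorem memLp_ch (μ : Measure ℂ) [IsFiniteMeasure μ] (a : ℂ) : MemLp (ch a) 2 μ :=
  MemLp.of_bound (ch_cont a).aestronglyMeasurable 1
    (Eventually.of_forall fun p => (ch_norm a p).le)

theorem inner_ch (μ : Measure ℂ) [IsFiniteMeasure μ] (a : ℂ) (k : Lp ℂ 2 μ) :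
    ⟪k, (memLp_ch μ a).toLp (ch a)⟫_ℂ = ∫ p, ch a p * (starRingEnd ℂ) (k p) ∂μ := by
  rw [L2.inner_def]
  apply integral_congr_ae
  filter_upwards [(memLp_ch μ a).coeFn_toLp] with p hp
  rw [hp]
  simp

/-- the contraction from `L²(|f| dλ)` onto the cyclic subspace of `x` -/
theorem exists_J (V : ℂ → H →L[ℂ] H)
    (hV : ∀ (a b : ℂ) (x y : H), ⟪V a x, V b y⟫_ℂ = ⟪x, V (b - a) y⟫_ℂ)
    (x : H) (f : ℂ → ℂ) (hf : Integrable f) (hfm : Measurable f)
    (hx : ∀ w, ⟪x, V w x⟫_ℂ = FourierTransform.fourier f w)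
    (μ : Measure ℂ) (hμ : μ = volume.withDensity fun p => (‖f p‖₊ : ℝ≥0∞)) [IsFiniteMeasure μ] :
    ∃ J : Lp ℂ 2 μ →L[ℂ] H, ‖J‖ ≤ 1 ∧ ∀ a, J ((memLp_ch μ a).toLp (ch a)) = V a x := by
  have hρ : Measurable fun p => ‖f p‖₊ := hfm.nnnorm
  set e : ℂ → Lp ℂ 2 μ := fun a => (memLp_ch μ a).toLp (ch a) with he
  have hdense : DenseRange (Finsupp.linearCombination ℂ e) := by
    have h1 : Dense ((Submodule.span ℂ (Set.range e) : Submodule ℂ (Lp ℂ 2 μ)) :
        Set (Lp ℂ 2 μ)) := by
      rw [Submodule.dense_iff_topologicalClosure_eq_top, Submodule.topologicalClosure_eq_top_iff,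
        Submodule.eq_bot_iff]
      intro k hk
      have h2 : ∀ a, ⟪k, e a⟫_ℂ = 0 := fun a =>
        Submodule.inner_left_of_mem_orthogonal (Submodule.subset_span (Set.mem_range_self a)) hk
      have h3 : (fun p => (starRingEnd ℂ) (k p)) =ᵐ[μ] 0 := by
        subst hμ
        apply uniq_dens _ hρ
        · exact Complex.conjCLE.toContinuousLinearMap.integrable_comp
            ((Lp.memLp k).integrable one_le_two)
        · intro a
          rw [← h2 a, he, inner_ch]
      apply Lp.ext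
      filter_upwards [h3, Lp.coeFn_zero ℂ 2 μ] with p hp hp'
      rw [hp']
      simpa using hp
    rw [← Finsupp.range_linearCombination] at h1
    exact h1
  have hbd : ∀ c : ℂ →₀ ℂ, ‖Finsupp.linearCombination ℂ (fun a => V a x) c‖ ≤
      1 * ‖Finsupp.linearCombination ℂ e c‖ := by
    intro c
    rw [one_mul, ← sq_le_sq₀ (norm_nonneg _) (norm_nonneg _)]
    have hρi : Integrable fun p => ((‖f p‖ : ℝ) : ℂ) := hf.norm.ofReal
    have e1 : ((‖Finsupp.linearCombination ℂ (fun a => V a x) c‖ ^ 2 : ℝ) : ℂ) =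
        ∫ p, ((‖∑ a ∈ c.support, c a * ch a p‖ ^ 2 : ℝ) : ℂ) * f p := by
      rw [← quad_sum f hf, Complex.ofReal_pow]
      have := inner_self_eq_norm_sq_to_K (𝕜 := ℂ) (Finsupp.linearCombination ℂ (fun a => V a x) c)
      refine this.symm.trans ?_
      rw [Finsupp.linearCombination_apply, Finsupp.sum, sum_inner]
      refine Finset.sum_congr rfl fun b _ => ?_
      rw [inner_sum]
      refine Finset.sum_congr rfl fun a _ => ?_
      rw [inner_smul_left, inner_smul_right, hV, hx, fourier_eq_ch, mul_assoc]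
    have e2 : ((‖Finsupp.linearCombination ℂ e c‖ ^ 2 : ℝ) : ℂ) =
        ∫ p, ((‖∑ a ∈ c.support, c a * ch a p‖ ^ 2 : ℝ) : ℂ) * ((‖f p‖ : ℝ) : ℂ) := by
      rw [← quad_sum _ hρi, Complex.ofReal_pow]
      have := inner_self_eq_norm_sq_to_K (𝕜 := ℂ) (Finsupp.linearCombination ℂ e c)
      refine this.symm.trans ?_
      rw [Finsupp.linearCombination_apply, Finsupp.sum, sum_inner]
      refine Finset.sum_congr rfl fun b _ => ?_
      rw [inner_sum]
      refine Finset.sum_congr rfl fun a _ => ?_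
      rw [inner_smul_left, inner_smul_right, mul_assoc]
      congr 2
      have h4 : ⟪e b, e a⟫_ℂ = ∫ p, ch (a - b) p ∂μ := by
        rw [he]
        simp only
        rw [inner_ch]
        apply integral_congr_ae
        filter_upwards [(memLp_ch μ b).coeFn_toLp] with p hp
        rw [hp, sub_eq_add_neg, ch_add, ch_neg]
      rw [h4]
      subst hμ
      rw [integral_withDensity_eq_integral_smul hρ]
      simp only [NNReal.smul_def, Complex.real_smul, coe_nnnorm]
      congr 1
      ext p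
      ring
    have e3 : ‖Finsupp.linearCombination ℂ e c‖ ^ 2 =
        ∫ p, ‖∑ a ∈ c.support, c a * ch a p‖ ^ 2 * ‖f p‖ := by
      have : ((‖Finsupp.linearCombination ℂ e c‖ ^ 2 : ℝ) : ℂ) =
          ((∫ p, ‖∑ a ∈ c.support, c a * ch a p‖ ^ 2 * ‖f p‖ : ℝ) : ℂ) := by
        rw [e2, ← integral_complex_ofReal]
        simp
      exact_mod_cast this
    calc ‖Finsupp.linearCombination ℂ (fun a => V a x) c‖ ^ 2
        = ‖((‖Finsupp.linearCombination ℂ (fun a => V a x) c‖ ^ 2 : ℝ) : ℂ)‖ := by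
          rw [Complex.norm_real, Real.norm_of_nonneg (by positivity)]
      _ ≤ ∫ p, ‖((‖∑ a ∈ c.support, c a * ch a p‖ ^ 2 : ℝ) : ℂ) * f p‖ := by
          rw [e1]; exact norm_integral_le_integral_norm _
      _ = ‖Finsupp.linearCombination ℂ e c‖ ^ 2 := by
          rw [e3]
          congr 1
          ext p
          rw [norm_mul, Complex.norm_real, Real.norm_of_nonneg (by positivity)]
  refine ⟨(Finsupp.linearCombination ℂ (fun a => V a x)).extendOfNorm
    (Finsupp.linearCombination ℂ e), LinearMap.opNorm_extendOfNorm_le hdense zero_le_one hbd,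
    fun a => ?_⟩
  have := LinearMap.extendOfNorm_eq hdense ⟨1, hbd⟩ (Finsupp.single a 1)
  simpa using this

end Pool.Agent.H78Z.WO
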