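import Pool.Agent.H78Z.WO.B

set_option autoImplicit false

open MeasureTheory FourierTransform Filter Topology
open scoped ENNReal NNReal InnerProductSpace

namespace Pool.Agent.H78Z.WO

variable {H : Type*} [NormedAddCommGroup H] [InnerProductSpace ℂ H] [CompleteSpace H]

theorem integrable_conj {μ : Measure ℂ} [IsFiniteMeasure μ] (k : Lp ℂ 2 μ) :
    Integrable (fun p => (starRingEnd ℂ) (k p)) μ :=
  Complex.conjCLE.toContinuousLinearMap.integrable_comp ((Lp.memLp k).integrable one_le_two)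

theorem cutoff_aux (V : ℂ → H →L[ℂ] H)
    (hV : ∀ (a b : ℂ) (x y : H), ⟪V a x, V b y⟫_ℂ = ⟪x, V (b - a) y⟫_ℂ)
    (h0 : ∀ x, V 0 x = x)
    (x : H) (f : ℂ → ℂ) (hf : Integrable f) (hfm : Measurable f)
    (hx : ∀ w, ⟪x, V w x⟫_ℂ = FourierTransform.fourier f w) (ε : ℝ) (hε : 0 < ε) :
    ∃ x' : H, ‖x - x'‖ ≤ ε ∧ ∃ C : ℝ≥0, ∀ y : H,
      eLpNorm (fun w => ⟪y, V w x'⟫_ℂ) 2 volume ^ 2 ≤ C * ‖y‖ₑ ^ 2 := by
  have hρ : Measurable fun p => ‖f p‖₊ := hfm.nnnorm
  obtain ⟨μ, hμ⟩ : ∃ μ : Measure ℂ, μ = volume.withDensity fun p => (‖f p‖₊ : ℝ≥0∞) := ⟨_, rfl⟩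
  have : IsFiniteMeasure μ := by
    rw [hμ]
    exact isFiniteMeasure_withDensity hf.2.ne
  have hμ1 : ∀ g : ℂ → ℂ, Integrable g μ → Integrable (fun p => ‖f p‖₊ • g p) := by
    intro g hg
    rw [hμ] at hg
    exact (integrable_withDensity_iff_integrable_smul hρ).1 hg
  have hμ2 : ∀ g : ℂ → ℝ≥0∞, Measurable g →
      ∫⁻ p, g p ∂μ = ∫⁻ p, ((fun p => (‖f p‖₊ : ℝ≥0∞)) * g) p := by
    intro g hg
    rw [hμ, lintegral_withDensity_eq_lintegral_mul _ (by fun_prop) hg]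
  obtain ⟨J, hJ, hJe⟩ := exists_J V hV x f hf hfm hx μ hμ
  -- choice of the level
  have hlev : ∃ M : ℕ, μ {p | (M : ℝ) < ‖f p‖} ≤ ENNReal.ofReal (ε ^ 2) := by
    have h1 : Tendsto (fun M : ℕ => μ {p | (M : ℝ) < ‖f p‖}) atTop
        (𝓝 (μ (⋂ M : ℕ, {p | (M : ℝ) < ‖f p‖}))) := by
      apply tendsto_measure_iInter_atTop
      · intro M
        exact (measurableSet_lt measurable_const hfm.norm).nullMeasurableSet
      · intro M N hMN p hp
        have h1 : (M : ℝ) ≤ N := by exact_mod_cast hMN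
        exact lt_of_le_of_lt h1 hp
      · exact ⟨0, measure_ne_top _ _⟩
    have h2 : (⋂ M : ℕ, {p | (M : ℝ) < ‖f p‖}) = ∅ := by
      rw [Set.eq_empty_iff_forall_notMem]
      intro p hp
      rw [Set.mem_iInter] at hp
      obtain ⟨M, hM⟩ := exists_nat_ge ‖f p‖
      exact absurd (hp M) (not_lt.2 hM)
    rw [h2, measure_empty] at h1
    exact (h1.eventually (ge_mem_nhds (ENNReal.ofReal_pos.2 (by positivity)))).exists
  obtain ⟨M, hM⟩ := hlev
  set S : Set ℂ := {p | (M : ℝ) < ‖f p‖} with hS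
  have hSm : MeasurableSet S := measurableSet_lt measurable_const hfm.norm
  set i1 : Lp ℂ 2 μ := indicatorConstLp 2 hSm (measure_ne_top μ S) (1 : ℂ) with hi1
  set i2 : Lp ℂ 2 μ := indicatorConstLp 2 hSm.compl (measure_ne_top μ Sᶜ) (1 : ℂ) with hi2
  have hsum : (memLp_ch μ 0).toLp (ch 0) = i1 + i2 := by
    apply Lp.ext
    filter_upwards [(memLp_ch μ 0).coeFn_toLp, Lp.coeFn_add i1 i2,
      (indicatorConstLp_coeFn : (i1 : ℂ → ℂ) =ᵐ[μ] S.indicator fun _ => (1 : ℂ)),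
      (indicatorConstLp_coeFn : (i2 : ℂ → ℂ) =ᵐ[μ] Sᶜ.indicator fun _ => (1 : ℂ))]
      with p h1 h2 h3 h4
    rw [h1, h2, Pi.add_apply, h3, h4, ch_zero]
    by_cases hp : p ∈ S <;> simp [hp]
  refine ⟨J i2, ?_, (M : ℝ≥0), fun y => ?_⟩
  · have h1 : x - J i2 = J i1 := by
      have := hJe 0
      rw [h0, hsum, map_add] at this
      rw [← this]; abel
    rw [h1]
    have h2 : ‖i1‖ ≤ ε := by
      rw [hi1, norm_indicatorConstLp (by norm_num) (by norm_num)]
      have h3 : μ.real S ≤ ε ^ 2 := ENNReal.toReal_le_of_le_ofReal (by positivity) hM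
      simp only [norm_one, one_mul, ENNReal.toReal_ofNat]
      calc μ.real S ^ (1 / 2 : ℝ) ≤ (ε ^ 2) ^ (1 / 2 : ℝ) :=
            Real.rpow_le_rpow measureReal_nonneg h3 (by norm_num)
        _ = ε := by rw [← Real.sqrt_eq_rpow, Real.sqrt_sq hε.le]
    calc ‖J i1‖ ≤ ‖J‖ * ‖i1‖ := J.le_opNorm _
      _ ≤ 1 * ε := by gcongr
      _ = ε := one_mul _
  · set h : Lp ℂ 2 μ := ContinuousLinearMap.adjoint J y with hh
    have hhn : ‖h‖ ≤ ‖y‖ := by
      calc ‖h‖ ≤ ‖ContinuousLinearMap.adjoint J‖ * ‖y‖ := ContinuousLinearMap.le_opNorm _ _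
        _ ≤ 1 * ‖y‖ := by
          gcongr
          rw [LinearIsometryEquiv.norm_map]; exact hJ
        _ = ‖y‖ := one_mul _
    set φ : ℂ → ℂ := fun p => ‖f p‖₊ • Sᶜ.indicator (fun p => (starRingEnd ℂ) (h p)) p with hφ
    have hφi : Integrable φ := hμ1 _ ((integrable_conj h).indicator hSm.compl)
    have hkey : ∀ w, ⟪y, V w (J i2)⟫_ℂ = FourierTransform.fourier φ w := by
      intro w
      set k : Lp ℂ 2 μ := ContinuousLinearMap.adjoint J (V (-w) y) with hk
      have hkh : (fun p => (starRingEnd ℂ) (k p) - ch w p * (starRingEnd ℂ) (h p)) =ᵐ[μ] 0 := by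
        have hint : Integrable
            (fun p => (starRingEnd ℂ) (k p) - ch w p * (starRingEnd ℂ) (h p)) μ :=
          (integrable_conj k).sub (integrable_ch_mul w (integrable_conj h))
        have hz : ∀ a, ∫ p, ch a p *
            ((starRingEnd ℂ) (k p) - ch w p * (starRingEnd ℂ) (h p)) ∂μ = 0 := by
          intro a
          have e1 : ∀ p, ch a p * ((starRingEnd ℂ) (k p) - ch w p * (starRingEnd ℂ) (h p)) =
              ch a p * (starRingEnd ℂ) (k p) - ch (a + w) p * (starRingEnd ℂ) (h p) := by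
            intro p; rw [ch_add]; ring
          simp_rw [e1]
          rw [integral_sub (integrable_ch_mul _ (integrable_conj k))
            (integrable_ch_mul _ (integrable_conj h)), ← inner_ch, ← inner_ch, hk, hh,
            ContinuousLinearMap.adjoint_inner_left, ContinuousLinearMap.adjoint_inner_left,
            hJe, hJe, hV, sub_neg_eq_add, sub_self]
        subst hμ
        exact uniq_dens _ hρ _ hint hz
      have e2 : ⟪y, V w (J i2)⟫_ℂ = ⟪k, i2⟫_ℂ := by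
        rw [hk, ContinuousLinearMap.adjoint_inner_left, ← h0 (J i2), hV, h0, zero_sub, neg_neg]
      rw [e2, L2.inner_def, fourier_eq_ch]
      have e3 : ∫ p, ⟪k p, i2 p⟫_ℂ ∂μ =
          ∫ p, ch w p * Sᶜ.indicator (fun p => (starRingEnd ℂ) (h p)) p ∂μ := by
        apply integral_congr_ae
        filter_upwards [hkh,
          (indicatorConstLp_coeFn : (i2 : ℂ → ℂ) =ᵐ[μ] Sᶜ.indicator fun _ => (1 : ℂ))]
          with p h1 h2
        rw [h2]
        have h3 : (starRingEnd ℂ) (k p) = ch w p * (starRingEnd ℂ) (h p) := sub_eq_zero.1 h1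
        by_cases hp : p ∈ S <;> simp [hp, h3]
      rw [e3]
      have e4 := integral_withDensity_eq_integral_smul (μ := (volume : Measure ℂ)) hρ
        (fun p => ch w p * Sᶜ.indicator (fun p => (starRingEnd ℂ) (h p)) p)
      rw [← hμ] at e4
      rw [e4]
      congr 1
      ext p
      simp only [hφ, NNReal.smul_def, Complex.real_smul]
      ring
    have hbd : eLpNorm φ 2 volume ^ 2 ≤ (M : ℝ≥0) * ‖y‖ₑ ^ 2 := by
      rw [eLp_sq]
      have hm : Measurable fun p => ‖h p‖ₑ ^ 2 :=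
        (Lp.stronglyMeasurable h).measurable.enorm.pow_const 2
      calc ∫⁻ p, ‖φ p‖ₑ ^ 2
          ≤ ∫⁻ p, (M : ℝ≥0) * (((fun p => (‖f p‖₊ : ℝ≥0∞)) * fun p => ‖h p‖ₑ ^ 2) p) := by
            apply lintegral_mono
            intro p
            by_cases hp : p ∈ S
            · simp [hφ, hp]
            · have h1 : ‖f p‖₊ ≤ (M : ℝ≥0) := by
                have : ‖f p‖ ≤ M := not_lt.1 hp
                exact_mod_cast this
              have h2 : ‖φ p‖ₑ = (‖f p‖₊ : ℝ≥0∞) * ‖h p‖ₑ := by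
                simp only [hφ, Set.indicator_of_mem (Set.mem_compl hp), NNReal.smul_def,
                  enorm_smul]
                simp [enorm]
              simp only [h2, Pi.mul_apply, mul_pow, ← mul_assoc]
              gcongr
              rw [sq]
              gcongr
        _ = (M : ℝ≥0) * ∫⁻ p, ‖h p‖ₑ ^ 2 ∂μ := by
            rw [lintegral_const_mul' _ _ ENNReal.coe_ne_top, hμ2 _ hm]
        _ ≤ (M : ℝ≥0) * ‖y‖ₑ ^ 2 := by
            rw [← eLp_sq, ← Lp.enorm_def]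
            gcongr
            exact enorm_le_iff_norm_le.2 hhn
    have hφ2 : MemLp φ 2 volume := by
      refine ⟨hφi.1, ?_⟩
      have : eLpNorm φ 2 volume ^ 2 < ∞ :=
        lt_of_le_of_lt hbd (ENNReal.mul_lt_top ENNReal.coe_lt_top (ENNReal.pow_lt_top enorm_lt_top))
      exact lt_top_iff_ne_top.2 fun h => by simp [h] at this
    simp_rw [hkey]
    rw [show (fun w => FourierTransform.fourier φ w) = FourierTransform.fourier φ from rfl,
      plancherel φ hφi hφ2]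
    exact hbd

theorem cutoff (V : ℂ → H →L[ℂ] H)
    (hV : ∀ (a b : ℂ) (x y : H), ⟪V a x, V b y⟫_ℂ = ⟪x, V (b - a) y⟫_ℂ)
    (h0 : ∀ x, V 0 x = x)
    (x : H) (f : ℂ → ℂ) (hf : Integrable f)
    (hx : ∀ w, ⟪x, V w x⟫_ℂ = ∫ p, ch w p * f p) (ε : ℝ) (hε : 0 < ε) :
    ∃ x' : H, ‖x - x'‖ ≤ ε ∧ ∃ C : ℝ≥0, ∀ y : H,
      eLpNorm (fun w => ⟪y, V w x'⟫_ℂ) 2 volume ^ 2 ≤ C * ‖y‖ₑ ^ 2 := by
  refine cutoff_aux V hV h0 x (hf.1.mk f) ((integrable_congr hf.1.ae_eq_mk).1 hf)
    hf.1.stronglyMeasurable_mk.measurable (fun w => ?_) ε hε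
  rw [hx, fourier_eq_ch]
  apply integral_congr_ae
  filter_upwards [hf.1.ae_eq_mk] with p hp
  rw [hp]

end Pool.Agent.H78Z.WO
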