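import Pool.Agent.H78Z.WO.A

set_option autoImplicit false

open MeasureTheory Filter Topology
open scoped ENNReal NNReal InnerProductSpace

namespace Pool.Agent.H78Z.WO

variable {H : Type*} [NormedAddCommGroup H] [InnerProductSpace ℂ H] [CompleteSpace H]

theorem finite_rank_bound (u : ℂ → H) (hu : Continuous u) (C : ℝ≥0)
    (hC : ∀ y : H, eLpNorm (fun w => ⟪y, u w⟫_ℂ) 2 volume ^ 2 ≤ C * ‖y‖ₑ ^ 2)
    (G : H →L[ℂ] H) (r : ℕ)
    (hr : Module.rank ℂ (LinearMap.range (G : H →ₗ[ℂ] H)) ≤ (r : Cardinal)) :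
    eLpNorm (fun w => G (u w)) 2 volume ≤ ENNReal.ofReal (√(C * r) * ‖G‖) := by
  set K : Submodule ℂ H := LinearMap.range (G : H →ₗ[ℂ] H) with hK
  have hfin : Module.Finite ℂ K :=
    Module.rank_lt_aleph0_iff.1 (lt_of_le_of_lt hr (Cardinal.natCast_lt_aleph0))
  have hfr : Module.finrank ℂ K ≤ r := Module.finrank_le_of_rank_le hr
  set b := stdOrthonormalBasis ℂ K with hb
  have h1 : ∀ v : H, ‖G v‖ₑ ^ 2 =
      ∑ i, ‖⟪ContinuousLinearMap.adjoint G (b i : H), v⟫_ℂ‖ₑ ^ 2 := by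
    intro v
    have h2 := b.sum_sq_norm_inner_right (⟨G v, ⟨v, rfl⟩⟩ : K)
    have h3 : ‖G v‖ ^ 2 = ∑ i, ‖⟪ContinuousLinearMap.adjoint G (b i : H), v⟫_ℂ‖ ^ 2 := by
      simp_rw [ContinuousLinearMap.adjoint_inner_left]
      exact h2.symm
    simp_rw [← ofReal_norm, ← ENNReal.ofReal_pow (norm_nonneg _)]
    rw [← ENNReal.ofReal_sum_of_nonneg (fun i _ => by positivity), h3]
  have h4 : eLpNorm (fun w => G (u w)) 2 volume ^ 2 ≤ ENNReal.ofReal (√(C * r) * ‖G‖) ^ 2 := by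
    rw [eLp_sq]
    simp_rw [h1]
    rw [lintegral_finsetSum]
    · calc ∑ i, ∫⁻ w, ‖⟪ContinuousLinearMap.adjoint G (b i : H), u w⟫_ℂ‖ₑ ^ 2
          ≤ ∑ _i : Fin (Module.finrank ℂ K), (C : ℝ≥0∞) * ‖G‖ₑ ^ 2 := by
            refine Finset.sum_le_sum fun i _ => ?_
            rw [← eLp_sq]
            refine (hC _).trans ?_
            gcongr
            apply enorm_le_iff_norm_le.2
            calc ‖ContinuousLinearMap.adjoint G (b i : H)‖
                ≤ ‖ContinuousLinearMap.adjoint G‖ * ‖(b i : H)‖ := ContinuousLinearMap.le_opNorm _ _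
              _ = ‖G‖ := by
                rw [LinearIsometryEquiv.norm_map]
                have : ‖(b i : H)‖ = 1 := b.orthonormal.1 i
                rw [this, mul_one]
        _ ≤ (r : ℝ≥0∞) * ((C : ℝ≥0∞) * ‖G‖ₑ ^ 2) := by
            rw [Finset.sum_const, Finset.card_univ, Fintype.card_fin, nsmul_eq_mul]
            gcongr
        _ = ENNReal.ofReal (√(C * r) * ‖G‖) ^ 2 := by
            rw [← ENNReal.ofReal_pow (by positivity), mul_pow, Real.sq_sqrt (by positivity),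
              ENNReal.ofReal_mul (by positivity), ENNReal.ofReal_mul (by positivity),
              ENNReal.ofReal_pow (norm_nonneg _), ofReal_norm]
            simp only [ENNReal.ofReal_coe_nnreal, ENNReal.ofReal_natCast]
            ring
    · intro i _
      have : Continuous fun w => ⟪ContinuousLinearMap.adjoint G (b i : H), u w⟫_ℂ := by fun_prop
      exact this.measurable.enorm.pow_const 2
  exact (ENNReal.pow_le_pow_left_iff two_ne_zero).1 h4

/-- approximation numbers -/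
noncomputable def apx (T : H →L[ℂ] H) (n : ℕ) : ℝ :=
  sInf {r : ℝ | ∃ F : H →L[ℂ] H,
    Module.rank ℂ (LinearMap.range (F : H →ₗ[ℂ] H)) ≤ (n : Cardinal) ∧ r = ‖T - F‖}

omit [CompleteSpace H] in
theorem apx_ne (T : H →L[ℂ] H) (n : ℕ) : {r : ℝ | ∃ F : H →L[ℂ] H,
    Module.rank ℂ (LinearMap.range (F : H →ₗ[ℂ] H)) ≤ (n : Cardinal) ∧ r = ‖T - F‖}.Nonempty :=
  ⟨‖T - 0‖, 0, by simp, rfl⟩

omit [CompleteSpace H] in
theorem apx_nonneg (T : H →L[ℂ] H) (n : ℕ) : 0 ≤ apx T n :=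
  Real.sInf_nonneg (by rintro r ⟨F, -, rfl⟩; exact norm_nonneg _)

omit [CompleteSpace H] in
theorem apx_anti (T : H →L[ℂ] H) {m n : ℕ} (h : m ≤ n) : apx T n ≤ apx T m := by
  apply csInf_le_csInf ⟨0, by rintro r ⟨F, -, rfl⟩; exact norm_nonneg _⟩ (apx_ne T m)
  rintro r ⟨F, hF, rfl⟩
  exact ⟨F, hF.trans (by exact_mod_cast h), rfl⟩

omit [CompleteSpace H] in
theorem apx_exists (T : H →L[ℂ] H) (n : ℕ) (ε : ℝ) (hε : 0 < ε) : ∃ F : H →L[ℂ] H,
    Module.rank ℂ (LinearMap.range (F : H →ₗ[ℂ] H)) ≤ (n : Cardinal) ∧ ‖T - F‖ ≤ apx T n + ε := by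
  obtain ⟨r, ⟨F, hF, rfl⟩, hr⟩ := exists_lt_of_csInf_lt (apx_ne T n)
    (lt_add_of_pos_right (apx T n) hε)
  exact ⟨F, hF, hr.le⟩

theorem finite_energy (u : ℂ → H) (hu : Continuous u) (C : ℝ≥0)
    (hC : ∀ y : H, eLpNorm (fun w => ⟪y, u w⟫_ℂ) 2 volume ^ 2 ≤ C * ‖y‖ₑ ^ 2)
    (T : H →L[ℂ] H) (hT : Summable fun n : ℕ => apx T n / √((n : ℝ) + 1)) :
    MemLp (fun w => T (u w)) 2 volume := by
  have hc : Summable fun k : ℕ => (2 : ℝ) ^ k * (apx T (2 ^ k) / √(((2 ^ k : ℕ) : ℝ) + 1)) := by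
    refine (summable_condensed_iff_of_nonneg (f := fun n : ℕ => apx T n / √((n : ℝ) + 1))
      (fun n => div_nonneg (apx_nonneg T n) (Real.sqrt_nonneg _)) ?_).2 hT
    intro m n _ hmn
    have h1 : (m : ℝ) ≤ n := by exact_mod_cast hmn
    have := apx_anti T hmn
    have := apx_nonneg T m
    gcongr
  -- the dyadic errors
  set d : ℕ → ℝ := fun k => apx T (2 ^ k) + (1 / 4 : ℝ) ^ k with hd
  have hd0 : ∀ k, 0 ≤ d k := fun k => add_nonneg (apx_nonneg _ _) (by positivity)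
  have hdm : ∀ k, d (k + 1) ≤ d k := by
    intro k
    have h1 : apx T (2 ^ (k + 1)) ≤ apx T (2 ^ k) :=
      apx_anti T (Nat.pow_le_pow_right (by norm_num) (Nat.le_succ k))
    have h2 : (1 / 4 : ℝ) ^ (k + 1) ≤ (1 / 4 : ℝ) ^ k :=
      pow_le_pow_of_le_one (by norm_num) (by norm_num) (Nat.le_succ k)
    simp only [hd]; linarith
  have hs : Summable fun k : ℕ => √((2 : ℝ) ^ k) * d k := by
    have h1 : Summable fun k : ℕ => 2 * ((2 : ℝ) ^ k * (apx T (2 ^ k) / √(((2 ^ k : ℕ) : ℝ) + 1)))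
        + (1 / 2 : ℝ) ^ k := (hc.mul_left 2).add summable_geometric_two
    refine Summable.of_nonneg_of_le (fun k => mul_nonneg (Real.sqrt_nonneg _) (hd0 k)) ?_ h1
    intro k
    have hp : (1 : ℝ) ≤ 2 ^ k := one_le_pow₀ (by norm_num)
    have ha := apx_nonneg T (2 ^ k)
    have hq : 0 < √(((2 ^ k : ℕ) : ℝ) + 1) := Real.sqrt_pos.2 (by positivity)
    have e1 : √((2 : ℝ) ^ k) * √(((2 ^ k : ℕ) : ℝ) + 1) ≤ 2 * 2 ^ k := by
      rw [← Real.sqrt_mul (by positivity), Real.sqrt_le_left (by positivity)]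
      push_cast
      nlinarith
    have e2 : √((2 : ℝ) ^ k) ≤ 2 ^ k := by
      rw [Real.sqrt_le_left (by positivity)]
      nlinarith
    have e3 : √((2 : ℝ) ^ k) * apx T (2 ^ k) ≤
        2 * ((2 : ℝ) ^ k * (apx T (2 ^ k) / √(((2 ^ k : ℕ) : ℝ) + 1))) := by
      rw [← mul_assoc, mul_div_assoc', le_div_iff₀ hq]
      nlinarith
    have e4 : √((2 : ℝ) ^ k) * (1 / 4 : ℝ) ^ k ≤ (1 / 2 : ℝ) ^ k := by
      calc √((2 : ℝ) ^ k) * (1 / 4 : ℝ) ^ k ≤ 2 ^ k * (1 / 4 : ℝ) ^ k := by gcongr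
        _ = (1 / 2 : ℝ) ^ k := by rw [← mul_pow]; norm_num
    simp only [hd]
    nlinarith
  have hdlim : Tendsto d atTop (𝓝 0) := by
    refine squeeze_zero hd0 (fun k => ?_) hs.tendsto_atTop_zero
    have hp : (1 : ℝ) ≤ √((2 : ℝ) ^ k) := Real.one_le_sqrt.2 (one_le_pow₀ (by norm_num))
    nlinarith [hd0 k]
  choose F hF hF' using fun k : ℕ => apx_exists T (2 ^ k) ((1 / 4 : ℝ) ^ k) (by positivity)
  have hmeas : ∀ G : H →L[ℂ] H, AEStronglyMeasurable (fun w => G (u w)) volume := fun G =>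
    (G.continuous.comp hu).aestronglyMeasurable
  have hstep : ∀ k, eLpNorm (fun w => (F (k + 1) - F k) (u w)) 2 volume ≤
      ENNReal.ofReal (4 * √C * (√((2 : ℝ) ^ k) * d k)) := by
    intro k
    have hr : Module.rank ℂ (LinearMap.range ((F (k + 1) - F k : H →L[ℂ] H) : H →ₗ[ℂ] H)) ≤
        ((4 * 2 ^ k : ℕ) : Cardinal) := by
      have h1 := LinearMap.rank_add_le ((F (k + 1) : H →L[ℂ] H) : H →ₗ[ℂ] H)
        (-((F k : H →L[ℂ] H) : H →ₗ[ℂ] H))
      have h2 : LinearMap.rank (-((F k : H →L[ℂ] H) : H →ₗ[ℂ] H)) ≤ ((2 ^ k : ℕ) : Cardinal) := by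
        unfold LinearMap.rank
        rw [LinearMap.range_neg]
        exact hF k
      have h3 : ((F (k + 1) - F k : H →L[ℂ] H) : H →ₗ[ℂ] H) =
          ((F (k + 1) : H →L[ℂ] H) : H →ₗ[ℂ] H) + (-((F k : H →L[ℂ] H) : H →ₗ[ℂ] H)) := by
        ext v; simp [sub_eq_add_neg]
      rw [h3]
      refine h1.trans ((add_le_add (hF (k + 1)) h2).trans ?_)
      have : 2 ^ (k + 1) + 2 ^ k ≤ 4 * 2 ^ k := by rw [pow_succ]; omega
      exact_mod_cast this
    refine (finite_rank_bound u hu C hC _ _ hr).trans (ENNReal.ofReal_le_ofReal ?_)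
    have hn : ‖F (k + 1) - F k‖ ≤ 2 * d k := by
      have : F (k + 1) - F k = (T - F k) - (T - F (k + 1)) := by abel
      rw [this]
      have h1 : ‖T - F k‖ ≤ d k := hF' k
      have h2 : ‖T - F (k + 1)‖ ≤ d (k + 1) := hF' (k + 1)
      linarith [norm_sub_le (T - F k) (T - F (k + 1)), hdm k]
    have e1 : √((C : ℝ) * ((4 * 2 ^ k : ℕ) : ℝ)) = 2 * √C * √((2 : ℝ) ^ k) := by
      push_cast
      rw [Real.sqrt_mul C.coe_nonneg, Real.sqrt_mul (by norm_num),
        show √(4 : ℝ) = 2 by rw [show (4 : ℝ) = 2 ^ 2 by norm_num, Real.sqrt_sq (by norm_num)]]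
      ring
    rw [e1]
    calc 2 * √C * √((2 : ℝ) ^ k) * ‖F (k + 1) - F k‖ ≤ 2 * √C * √((2 : ℝ) ^ k) * (2 * d k) := by
          gcongr
      _ = _ := by ring
  set B0 : ℝ := √(C * ((2 ^ 0 : ℕ) : ℝ)) * ‖F 0‖ with hB0
  have hB0' : 0 ≤ B0 := by positivity
  have hall : ∀ m, eLpNorm (fun w => F m (u w)) 2 volume ≤
      ENNReal.ofReal (B0 + ∑ k ∈ Finset.range m, 4 * √C * (√((2 : ℝ) ^ k) * d k)) := by
    intro m
    induction m with
    | zero => simpa [hB0] using finite_rank_bound u hu C hC (F 0) _ (hF 0)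
    | succ m ih =>
      have e : (fun w => F (m + 1) (u w)) =
          (fun w => F m (u w)) + fun w => (F (m + 1) - F m) (u w) := by
        ext w; simp
      rw [e, Finset.sum_range_succ, ← add_assoc, ENNReal.ofReal_add]
      · exact (eLpNorm_add_le (hmeas _) (hmeas _) one_le_two).trans (add_le_add ih (hstep m))
      · exact add_nonneg hB0' (Finset.sum_nonneg fun k _ => by have := hd0 k; positivity)
      · have := hd0 m; positivity
  have hall' : ∀ m, eLpNorm (fun w => F m (u w)) 2 volume ≤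
      ENNReal.ofReal (B0 + ∑' k, 4 * √C * (√((2 : ℝ) ^ k) * d k)) := by
    intro m
    refine (hall m).trans (ENNReal.ofReal_le_ofReal ?_)
    gcongr
    exact (hs.mul_left _).sum_le_tsum _ fun k _ => by have := hd0 k; positivity
  refine ⟨hmeas T, ?_⟩
  have hlim := Lp.eLpNorm_lim_le_liminf_eLpNorm (p := 2) (μ := (volume : Measure ℂ))
    (f := fun m w => F m (u w)) (fun m => hmeas _) (fun w => T (u w))
    (Eventually.of_forall fun w => by
      rw [tendsto_iff_norm_sub_tendsto_zero]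
      refine squeeze_zero (fun _ => norm_nonneg _) (fun m => ?_)
        (by simpa using hdlim.mul_const ‖u w‖)
      rw [norm_sub_rev, ← sub_apply]
      exact ((T - F m).le_opNorm _).trans (mul_le_mul_of_nonneg_right (hF' m) (norm_nonneg _)))
  exact lt_of_le_of_lt (hlim.trans (liminf_le_of_frequently_le'
    (Frequently.of_forall hall'))) ENNReal.ofReal_lt_top

end Pool.Agent.H78Z.WO
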