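import Mathlib

set_option autoImplicit false

open MeasureTheory Filter Topology Set
open scoped ENNReal NNReal Real

namespace Pool.Agent.H78Z.WO

variable {H : Type*} [NormedAddCommGroup H] [NormedSpace ℝ H]

/-- the length-area (Courant-Lebesgue) argument -/
theorem length_area (e : ℂ → ℝ) (he : Continuous e) (he0 : ∀ z, 0 ≤ e z)
    (he2 : MemLp e 2 volume) (L : ℝ) (hL : 0 < L) (U : ℝ → ℝ → H)
    (hU : ∀ R θ : ℝ, 0 < R → ∃ D : H, HasDerivAt (U R) D θ ∧
      ‖D‖ ≤ L * R * e (Complex.polarCoord.symm (R, θ)))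
    (θ₁ θ₂ : ℝ) (h₁ : -π ≤ θ₁) (h₁₂ : θ₁ ≤ θ₂) (h₂ : θ₂ ≤ π) (a b : H)
    (ha : Tendsto (fun R => U R θ₁) atTop (𝓝 a)) (hb : Tendsto (fun R => U R θ₂) atTop (𝓝 b)) :
    a = b := by
  by_contra hab
  have hpos : 0 < ‖b - a‖ := norm_pos_iff.2 (sub_ne_zero.2 (Ne.symm hab))
  set δ : ℝ := ‖b - a‖ / 2 with hδ
  have hδ0 : 0 < δ := by positivity
  have hev : ∀ᶠ R in atTop, δ < ‖U R θ₂ - U R θ₁‖ :=
    (hb.sub ha).norm.eventually (lt_mem_nhds (by rw [hδ]; linarith))
  obtain ⟨R₀, hR₀⟩ := (hev.and (eventually_gt_atTop 0)).exists_forall_of_atTop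
  have hR₀pos : 0 < R₀ := (hR₀ R₀ le_rfl).2
  have hcont : ∀ R : ℝ, Continuous fun θ : ℝ => e (Complex.polarCoord.symm (R, θ)) := by
    intro R
    simp only [Complex.polarCoord_symm_apply]
    fun_prop
  set c : ℝ := δ ^ 2 / (2 * π * L ^ 2) with hc
  have hc0 : 0 < c := by have := Real.pi_pos; positivity
  have hlow : ∀ R, R₀ ≤ R →
      c * R⁻¹ ≤ R * ∫ θ in (-π)..π, e (Complex.polarCoord.symm (R, θ)) ^ 2 := by
    intro R hR
    obtain ⟨hδR, hRpos⟩ := hR₀ R hR
    have hpi := Real.pi_pos
    have h1 : ‖U R θ₂ - U R θ₁‖ ≤ ∫ θ in θ₁..θ₂, L * R * e (Complex.polarCoord.symm (R, θ)) := by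
      apply norm_sub_le_integral_of_norm_deriv_le_of_le h₁₂
      · intro θ _
        obtain ⟨D, hD, -⟩ := hU R θ hRpos
        exact hD.continuousAt.continuousWithinAt
      · intro θ _
        obtain ⟨D, hD, -⟩ := hU R θ hRpos
        exact hD.differentiableAt.differentiableWithinAt
      · refine Eventually.of_forall fun θ _ => ?_
        obtain ⟨D, hD, hD'⟩ := hU R θ hRpos
        rwa [hD.deriv]
      · exact ((hcont R).const_mul _).intervalIntegrable _ _
    have h2 : ∫ θ in θ₁..θ₂, L * R * e (Complex.polarCoord.symm (R, θ)) ≤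
        ∫ θ in (-π)..π, L * R * e (Complex.polarCoord.symm (R, θ)) := by
      apply intervalIntegral.integral_mono_interval h₁ h₁₂ h₂
      · exact Eventually.of_forall fun θ => by have := he0 (Complex.polarCoord.symm (R, θ)); positivity
      · exact ((hcont R).const_mul _).intervalIntegrable _ _
    have h3 : ∫ θ in (-π)..π, L * R * e (Complex.polarCoord.symm (R, θ)) ≤
        ∫ θ in (-π)..π, (π * L ^ 2 * R ^ 2 / δ * e (Complex.polarCoord.symm (R, θ)) ^ 2
          + δ / (4 * π)) := by
      apply intervalIntegral.integral_mono_on (by linarith)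
      · exact ((hcont R).const_mul _).intervalIntegrable _ _
      · exact ((((hcont R).pow 2).const_mul _).add continuous_const).intervalIntegrable _ _
      · intro θ _
        set t := e (Complex.polarCoord.symm (R, θ))
        have : π * L ^ 2 * R ^ 2 / δ * t ^ 2 + δ / (4 * π) - L * R * t =
            (2 * π * L * R * t - δ) ^ 2 / (4 * π * δ) := by
          field_simp
          ring
        have h4 : 0 ≤ (2 * π * L * R * t - δ) ^ 2 / (4 * π * δ) := by positivity
        linarith
    have hc2 : Continuous fun θ : ℝ =>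
        π * L ^ 2 * R ^ 2 / δ * e (Complex.polarCoord.symm (R, θ)) ^ 2 :=
      ((hcont R).pow 2).const_mul _
    rw [intervalIntegral.integral_add (hc2.intervalIntegrable _ _)
      (continuous_const.intervalIntegrable _ _),
      intervalIntegral.integral_const_mul (π * L ^ 2 * R ^ 2 / δ),
      intervalIntegral.integral_const] at h3
    set I := ∫ θ in (-π)..π, e (Complex.polarCoord.symm (R, θ)) ^ 2
    have h5 : (π - -π) • (δ / (4 * π)) = δ / 2 := by
      rw [smul_eq_mul]; field_simp; ring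
    rw [h5] at h3
    have h6 : δ / 2 ≤ π * L ^ 2 * R ^ 2 / δ * I := by linarith
    have h7 : c * R⁻¹ = (δ / (π * L ^ 2 * R)) * (δ / 2) := by
      rw [hc]; field_simp
    have h8 : R * I = (δ / (π * L ^ 2 * R)) * (π * L ^ 2 * R ^ 2 / δ * I) := by
      field_simp
    rw [h7, h8]
    gcongr
  -- the total energy
  have hfin : ∫⁻ z, ENNReal.ofReal (e z ^ 2) < ∞ := by
    have := (memLp_two_iff_integrable_sq he2.1).1 he2
    exact this.lintegral_lt_top
  rw [← Complex.lintegral_comp_polarCoord_symm, polarCoord_target, Measure.volume_eq_prod,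
    ← Measure.prod_restrict, lintegral_prod] at hfin
  swap
  · have : Continuous fun p : ℝ × ℝ => e (Complex.polarCoord.symm p) := by
      simp only [Complex.polarCoord_symm_apply]
      fun_prop
    have h2 : Measurable fun p : ℝ × ℝ => ENNReal.ofReal (e (Complex.polarCoord.symm p) ^ 2) :=
      (this.pow 2).measurable.ennreal_ofReal
    exact (measurable_fst.ennreal_ofReal.mul h2).aemeasurable
  have hle : ∫⁻ R in Ioi R₀, ENNReal.ofReal (c * R⁻¹) ≤ ∫⁻ R in Ioi (0 : ℝ), ∫⁻ θ in Ioo (-π) π,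
      ENNReal.ofReal R • ENNReal.ofReal (e (Complex.polarCoord.symm (R, θ)) ^ 2) := by
    refine le_trans ?_ (lintegral_mono_set (Ioi_subset_Ioi hR₀pos.le))
    refine setLIntegral_mono' measurableSet_Ioi fun R hR => ?_
    have hRR : R₀ ≤ R := le_of_lt hR
    have hRpos : 0 < R := (hR₀ R hRR).2
    refine (ENNReal.ofReal_le_ofReal (hlow R hRR)).trans (le_of_eq ?_)
    simp only [smul_eq_mul]
    rw [lintegral_const_mul' _ _ ENNReal.ofReal_ne_top, ENNReal.ofReal_mul hRpos.le,
      intervalIntegral.integral_of_le (by linarith [Real.pi_pos]), integral_Ioc_eq_integral_Ioo,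
      ofReal_integral_eq_lintegral_ofReal]
    · exact (((hcont R).pow 2).integrableOn_Icc).mono_set Ioo_subset_Icc_self
    · exact Eventually.of_forall fun θ => sq_nonneg _
  have hint : IntegrableOn (fun R : ℝ => c * R⁻¹) (Ioi R₀) := by
    refine (lintegral_ofReal_ne_top_iff_integrable ?_ ?_).1 (lt_of_le_of_lt hle hfin).ne
    · exact (measurable_inv.const_mul c).aestronglyMeasurable
    · filter_upwards [ae_restrict_mem measurableSet_Ioi] with R hR
      have : 0 < R := hR₀pos.trans hR
      positivity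
  apply not_integrableOn_Ioi_inv (a := R₀)
  have := hint.const_mul c⁻¹
  simpa [IntegrableOn, ← mul_assoc, inv_mul_cancel₀ hc0.ne'] using this

end Pool.Agent.H78Z.WO
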