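import Pool.Agent.H78Z.WO.C
import Pool.Agent.H78Z.WO.D
import Pool.Agent.H78Z.WO.E

set_option autoImplicit false

open MeasureTheory Filter Topology
open scoped ENNReal NNReal InnerProductSpace Real

namespace Pool.Agent.H78Z.WO

variable {H : Type*} [NormedAddCommGroup H] [InnerProductSpace ℂ H] [CompleteSpace H]

/-- the two-parameter group `exp (i s A₁ + i t A₂)` -/
noncomputable def grp (A₁ A₂ : H →L[ℂ] H) (s t : ℝ) : H →L[ℂ] H :=
  NormedSpace.exp (((s : ℂ) * Complex.I) • A₁ + ((t : ℂ) * Complex.I) • A₂)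

theorem grp_split {A₁ A₂ : H →L[ℂ] H} (hA : Commute A₁ A₂) (s t : ℝ) :
    grp A₁ A₂ s t = NormedSpace.exp (((s : ℂ) * Complex.I) • A₁) *
      NormedSpace.exp (((t : ℂ) * Complex.I) • A₂) := by
  let +nondep : NormedAlgebra ℚ (H →L[ℂ] H) := .restrictScalars ℚ ℂ _
  exact NormedSpace.exp_add_of_commute ((hA.smul_left _).smul_right _)

theorem grp_add {A₁ A₂ : H →L[ℂ] H} (hA : Commute A₁ A₂) (s t s' t' : ℝ) :
    grp A₁ A₂ (s + s') (t + t') = grp A₁ A₂ s t * grp A₁ A₂ s' t' := by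
  let +nondep : NormedAlgebra ℚ (H →L[ℂ] H) := .restrictScalars ℚ ℂ _
  unfold grp
  rw [← NormedSpace.exp_add_of_commute]
  · congr 1
    push_cast
    module
  · refine Commute.add_left (Commute.add_right ?_ ?_) (Commute.add_right ?_ ?_)
    · exact ((Commute.refl A₁).smul_left _).smul_right _
    · exact (hA.smul_left _).smul_right _
    · exact (hA.symm.smul_left _).smul_right _
    · exact ((Commute.refl A₂).smul_left _).smul_right _

theorem grp_zero (A₁ A₂ : H →L[ℂ] H) : grp A₁ A₂ 0 0 = 1 := by simp [grp]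

theorem grp_star {A₁ A₂ : H →L[ℂ] H} (h₁ : IsSelfAdjoint A₁) (h₂ : IsSelfAdjoint A₂) (s t : ℝ) :
    star (grp A₁ A₂ s t) = grp A₁ A₂ (-s) (-t) := by
  unfold grp
  rw [NormedSpace.star_exp, star_add, star_smul, star_smul, h₁.star_eq, h₂.star_eq]
  congr 2 <;> simp

theorem grp_inner {A₁ A₂ : H →L[ℂ] H} (h₁ : IsSelfAdjoint A₁) (h₂ : IsSelfAdjoint A₂)
    (hA : Commute A₁ A₂) (s t s' t' : ℝ) (x y : H) :
    ⟪grp A₁ A₂ s t x, grp A₁ A₂ s' t' y⟫_ℂ = ⟪x, grp A₁ A₂ (s' - s) (t' - t) y⟫_ℂ := by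
  rw [← ContinuousLinearMap.adjoint_inner_right, ← ContinuousLinearMap.star_eq_adjoint,
    grp_star h₁ h₂, ← mul_apply_eq_comp, ← grp_add hA, neg_add_eq_sub, neg_add_eq_sub]

theorem grp_norm {A₁ A₂ : H →L[ℂ] H} (h₁ : IsSelfAdjoint A₁) (h₂ : IsSelfAdjoint A₂)
    (hA : Commute A₁ A₂) (s t : ℝ) (x : H) : ‖grp A₁ A₂ s t x‖ = ‖x‖ := by
  have := grp_inner h₁ h₂ hA s t s t x x
  rw [sub_self, sub_self, grp_zero, one_apply_eq_self, inner_self_eq_norm_sq_to_K,
    inner_self_eq_norm_sq_to_K] at this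
  have h2 : ‖grp A₁ A₂ s t x‖ ^ 2 = ‖x‖ ^ 2 := by exact_mod_cast this
  exact (sq_eq_sq₀ (norm_nonneg _) (norm_nonneg _)).1 h2

theorem grp_cont (A₁ A₂ : H →L[ℂ] H) : Continuous fun p : ℝ × ℝ => grp A₁ A₂ p.1 p.2 := by
  let +nondep : NormedAlgebra ℚ (H →L[ℂ] H) := .restrictScalars ℚ ℂ _
  unfold grp
  exact NormedSpace.exp_continuous.comp (by fun_prop)

theorem grp_comm {A₁ A₂ : H →L[ℂ] H} (hA : Commute A₁ A₂) (s t : ℝ) (a b : ℂ) :
    Commute (a • A₁ + b • A₂) (grp A₁ A₂ s t) := by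
  unfold grp
  apply Commute.exp_right
  refine Commute.add_left (Commute.add_right ?_ ?_) (Commute.add_right ?_ ?_)
  · exact ((Commute.refl A₁).smul_left _).smul_right _
  · exact (hA.smul_left _).smul_right _
  · exact (hA.symm.smul_left _).smul_right _
  · exact ((Commute.refl A₂).smul_left _).smul_right _

theorem grp_deriv {A₁ A₂ : H →L[ℂ] H} (hA : Commute A₁ A₂) {s t : ℝ → ℝ} {s' t' θ : ℝ}
    (hs : HasDerivAt s s' θ) (ht : HasDerivAt t t' θ) :
    HasDerivAt (fun θ => grp A₁ A₂ (s θ) (t θ))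
      ((((s' : ℂ) * Complex.I) • A₁ + ((t' : ℂ) * Complex.I) • A₂) * grp A₁ A₂ (s θ) (t θ)) θ := by
  simp_rw [grp_split hA]
  have h1 : HasDerivAt (fun θ => ((s θ : ℝ) : ℂ) * Complex.I) ((s' : ℂ) * Complex.I) θ :=
    hs.ofReal_comp.mul_const _
  have h2 : HasDerivAt (fun θ => ((t θ : ℝ) : ℂ) * Complex.I) ((t' : ℂ) * Complex.I) θ :=
    ht.ofReal_comp.mul_const _
  have h3 := (hasDerivAt_exp_smul_const' (𝕂 := ℂ) A₁ (((s θ : ℝ) : ℂ) * Complex.I)).scomp θ h1
  have h4 := (hasDerivAt_exp_smul_const' (𝕂 := ℂ) A₂ (((t θ : ℝ) : ℂ) * Complex.I)).scomp θ h2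
  have h5 := h3.mul h4
  refine HasDerivAt.congr_deriv h5 ?_
  have h6 : Commute A₂ (NormedSpace.exp ((((s θ : ℝ) : ℂ) * Complex.I) • A₁)) :=
    (hA.symm.smul_right _).exp_right
  simp only [Function.comp, add_mul, smul_mul_assoc, mul_smul_comm, ← mul_assoc, h6.eq]

theorem main (A₁ A₂ B₁ B₂ : H →L[ℂ] H)
    (hA₁ : IsSelfAdjoint A₁) (hA₂ : IsSelfAdjoint A₂) (hB₁ : IsSelfAdjoint B₁)
    (hB₂ : IsSelfAdjoint B₂) (hA : Commute A₁ A₂) (hB : Commute B₁ B₂)
    (hK₁ : Summable fun n : ℕ => apx (A₁ - B₁) n / √((n : ℝ) + 1))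
    (hK₂ : Summable fun n : ℕ => apx (A₂ - B₂) n / √((n : ℝ) + 1))
    (hac : ∀ x : H, ∃ f : ℝ × ℝ → ℂ, Integrable f ∧ ∀ s t : ℝ, ⟪x, grp A₁ A₂ s t x⟫_ℂ =
      ∫ p : ℝ × ℝ, f p * Complex.exp (Complex.I * ((s : ℂ) * (p.1 : ℂ) + (t : ℂ) * (p.2 : ℂ))))
    (θ₁ θ₂ : ℝ) (h₁ : 0 ≤ θ₁) (h₁₂ : θ₁ ≤ θ₂) (h₂ : θ₂ ≤ 2 * π) (W₁ W₂ : H →L[ℂ] H)
    (hW₁ : ∀ x : H, Tendsto (fun t : ℝ => (grp B₁ B₂ (-(t * Real.cos θ₁)) (-(t * Real.sin θ₁)) *
      grp A₁ A₂ (t * Real.cos θ₁) (t * Real.sin θ₁)) x) atTop (𝓝 (W₁ x)))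
    (hW₂ : ∀ x : H, Tendsto (fun t : ℝ => (grp B₁ B₂ (-(t * Real.cos θ₂)) (-(t * Real.sin θ₂)) *
      grp A₁ A₂ (t * Real.cos θ₂) (t * Real.sin θ₂)) x) atTop (𝓝 (W₂ x))) :
    W₁ = W₂ := by
  set V : ℂ → H →L[ℂ] H := fun w => grp A₁ A₂ (-(2 * π * w.re)) (-(2 * π * w.im)) with hVdef
  have hV : ∀ (a b : ℂ) (x y : H), ⟪V a x, V b y⟫_ℂ = ⟪x, V (b - a) y⟫_ℂ := by
    intro a b x y
    simp only [hVdef]
    rw [grp_inner hA₁ hA₂ hA]
    congr 3 <;> simp <;> ring
  have h0 : ∀ x, V 0 x = x := by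
    intro x; simp [hVdef, grp_zero]
  have hVc : Continuous V :=
    (grp_cont A₁ A₂).comp (f := fun w : ℂ => (-(2 * π * w.re), -(2 * π * w.im))) (by fun_prop)
  have hdense : ∀ (x : H) (ε : ℝ), 0 < ε → ∃ x' : H, ‖x - x'‖ ≤ ε ∧ W₁ x' = W₂ x' := by
    intro x ε hε
    obtain ⟨f, hf, hfx⟩ := hac x
    have hmp := Complex.volume_preserving_equiv_real_prod
    obtain ⟨x', hx', C, hC⟩ := cutoff V hV h0 x (f ∘ Complex.measurableEquivRealProd)
      ((hmp.integrable_comp_emb Complex.measurableEquivRealProd.measurableEmbedding).2 hf)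
      (fun w => by
        simp only [hVdef]
        rw [hfx, ← hmp.integral_comp']
        congr 1
        ext p
        rw [mul_comm]
        congr 1
        simp only [ch, Real.fourierChar_apply, Complex.measurableEquivRealProd_apply,
          Complex.inner]
        congr 1
        simp
        ring) ε hε
    refine ⟨x', hx', ?_⟩
    have hu : Continuous fun w => V w x' := by fun_prop
    have m1 := finite_energy (fun w => V w x') hu C hC _ hK₁
    have m2 := finite_energy (fun w => V w x') hu C hC _ hK₂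
    have hpi := Real.pi_pos
    refine length_area (fun w => ‖(A₁ - B₁) (V w x')‖ + ‖(A₂ - B₂) (V w x')‖) (by fun_prop)
      (fun w => by positivity) (m1.norm.add m2.norm) (2 * π) (by positivity)
      (fun R θ => (grp B₁ B₂ (2 * π * (R * Real.cos θ)) (2 * π * (R * Real.sin θ)) *
        grp A₁ A₂ (-(2 * π * (R * Real.cos θ))) (-(2 * π * (R * Real.sin θ)))) x')
      ?_ (θ₁ - π) (θ₂ - π) (by linarith) (by linarith) (by linarith) _ _ ?_ ?_
    · intro R θ hR
      have hs : HasDerivAt (fun θ => 2 * π * (R * Real.cos θ)) (2 * π * (R * -Real.sin θ)) θ :=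
        ((Real.hasDerivAt_cos θ).const_mul R).const_mul _
      have ht : HasDerivAt (fun θ => 2 * π * (R * Real.sin θ)) (2 * π * (R * Real.cos θ)) θ :=
        ((Real.hasDerivAt_sin θ).const_mul R).const_mul _
      have hd := ((ContinuousLinearMap.apply ℂ H x').restrictScalars ℝ).hasFDerivAt.comp_hasDerivAt
        θ ((grp_deriv hB hs ht).mul (grp_deriv hA hs.neg ht.neg))
      refine ⟨_, hd, ?_⟩
      set s' : ℝ := 2 * π * (R * -Real.sin θ) with hs'
      set t' : ℝ := 2 * π * (R * Real.cos θ) with ht'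
      have hVe : V (Complex.polarCoord.symm (R, θ)) =
          grp A₁ A₂ (-(2 * π * (R * Real.cos θ))) (-(2 * π * (R * Real.sin θ))) := by
        simp [hVdef, Complex.cos_ofReal_re, Complex.sin_ofReal_re]
      simp only [hVe, Pi.neg_apply, ContinuousLinearMap.coe_restrictScalars',
        ContinuousLinearMap.apply_apply]
      rw [(grp_comm hB _ _ _ _).eq]
      set v := grp A₁ A₂ (-(2 * π * (R * Real.cos θ))) (-(2 * π * (R * Real.sin θ))) x' with hv
      set G := grp B₁ B₂ t' (2 * π * (R * Real.sin θ)) with hG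
      have e1 : ∀ (P Q : H →L[ℂ] H) (E : H →L[ℂ] H), (G * P * E + G * (Q * E)) x' =
          G ((P + Q) (E x')) := by
        intro P Q E; simp
      rw [e1, grp_norm hB₁ hB₂ hB]
      have e2 : (((s' : ℂ) * Complex.I) • B₁ + ((t' : ℂ) * Complex.I) • B₂ +
          ((((-s' : ℝ) : ℂ) * Complex.I) • A₁ + (((-t' : ℝ) : ℂ) * Complex.I) • A₂)) =
          (((-s' : ℝ) : ℂ) * Complex.I) • (A₁ - B₁) + (((-t' : ℝ) : ℂ) * Complex.I) • (A₂ - B₂) := by
        push_cast
        module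
      rw [e2]
      have b1 : |s'| ≤ 2 * π * R := by
        rw [hs', abs_mul, abs_mul R, abs_of_pos hR, abs_of_pos (by positivity : 0 < 2 * π), abs_neg]
        gcongr
        exact mul_le_of_le_one_right hR.le (Real.abs_sin_le_one θ)
      have b2 : |t'| ≤ 2 * π * R := by
        rw [ht', abs_mul, abs_mul R, abs_of_pos hR, abs_of_pos (by positivity : 0 < 2 * π)]
        gcongr
        exact mul_le_of_le_one_right hR.le (Real.abs_cos_le_one θ)
      rw [ContinuousLinearMap.add_apply, ContinuousLinearMap.smul_apply,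
        ContinuousLinearMap.smul_apply, mul_add]
      refine (norm_add_le _ _).trans (add_le_add ?_ ?_)
      · rw [norm_smul, norm_mul, Complex.norm_I, mul_one, Complex.norm_real, Real.norm_eq_abs,
          abs_neg]
        gcongr
      · rw [norm_smul, norm_mul, Complex.norm_I, mul_one, Complex.norm_real, Real.norm_eq_abs,
          abs_neg]
        gcongr
    · have := (hW₁ x').comp (tendsto_id.const_mul_atTop (by positivity : 0 < 2 * π))
      refine this.congr fun R => ?_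
      simp only [Function.comp, id, Real.cos_sub_pi, Real.sin_sub_pi]
      congr 3 <;> ring
    · have := (hW₂ x').comp (tendsto_id.const_mul_atTop (by positivity : 0 < 2 * π))
      refine this.congr fun R => ?_
      simp only [Function.comp, id, Real.cos_sub_pi, Real.sin_sub_pi]
      congr 3 <;> ring
  ext x
  have hcl : IsClosed {x : H | W₁ x = W₂ x} := isClosed_eq W₁.continuous W₂.continuous
  have : x ∈ closure {x : H | W₁ x = W₂ x} := by
    rw [Metric.mem_closure_iff]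
    intro ε hε
    obtain ⟨x', hx', h⟩ := hdense x (ε / 2) (by positivity)
    exact ⟨x', h, by rw [dist_eq_norm]; linarith⟩
  rwa [hcl.closure_eq] at this

end Pool.Agent.H78Z.WO
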