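import Pool.Agent.H78Z.WO.D

set_option autoImplicit false

open MeasureTheory Filter Topology Set
open scoped ENNReal NNReal InnerProductSpace Real

namespace Pool.Agent.H78Z.WO

variable {H : Type*} [NormedAddCommGroup H] [InnerProductSpace ℂ H] [CompleteSpace H]

theorem ev_norm {p : ℂ → Prop} (h : ∀ᶠ w in cocompact ℂ, p w) :
    ∃ R : ℝ, ∀ w, R ≤ ‖w‖ → p w := by
  rw [← Metric.cobounded_eq_cocompact, ← comap_norm_atTop, eventually_comap, eventually_atTop] at h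
  obtain ⟨R, hR⟩ := h
  exact ⟨R, fun w hw => hR _ hw w rfl⟩

omit [CompleteSpace H] in
theorem dyadic (T : H →L[ℂ] H) (hT : Summable fun n : ℕ => apx T n / √((n : ℝ) + 1)) :
    ∃ (F : ℕ → H →L[ℂ] H) (d : ℕ → ℝ), (∀ k, 0 ≤ d k) ∧
      (Summable fun k : ℕ => √((2 : ℝ) ^ k) * d k) ∧ Tendsto d atTop (𝓝 0) ∧
      (∀ k, Module.rank ℂ (LinearMap.range (F k : H →ₗ[ℂ] H)) ≤ ((2 ^ k : ℕ) : Cardinal)) ∧
      (∀ k, ‖T - F k‖ ≤ d k) ∧
      (∀ k, Module.rank ℂ (LinearMap.range ((F (k + 1) - F k : H →L[ℂ] H) : H →ₗ[ℂ] H)) ≤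
        ((4 * 2 ^ k : ℕ) : Cardinal)) ∧
      (∀ k, ‖F (k + 1) - F k‖ ≤ 2 * d k) := by
  have hc : Summable fun k : ℕ => (2 : ℝ) ^ k * (apx T (2 ^ k) / √(((2 ^ k : ℕ) : ℝ) + 1)) := by
    refine (summable_condensed_iff_of_nonneg (f := fun n : ℕ => apx T n / √((n : ℝ) + 1))
      (fun n => div_nonneg (apx_nonneg T n) (Real.sqrt_nonneg _)) ?_).2 hT
    intro m n _ hmn
    have h1 : (m : ℝ) ≤ n := by exact_mod_cast hmn
    have := apx_anti T hmn
    have := apx_nonneg T m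
    gcongr
  set d : ℕ → ℝ := fun k => apx T (2 ^ k) + (1 / 4 : ℝ) ^ k with hd
  have hd0 : ∀ k, 0 ≤ d k := fun k => add_nonneg (apx_nonneg _ _) (by positivity)
  have hdm : ∀ k, d (k + 1) ≤ d k := by
    intro k
    have h1 : apx T (2 ^ (k + 1)) ≤ apx T (2 ^ k) :=
      apx_anti T (Nat.pow_le_pow_right (by norm_num) (Nat.le_succ k))
    have h2 : (1 / 4 : ℝ) ^ (k + 1) ≤ (1 / 4 : ℝ) ^ k :=
      pow_le_pow_of_le_one (by norm_num) (by norm_num) (Nat.le_succ k)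
    simp only [hd]; linarith
  have hs : Summable fun k : ℕ => √((2 : ℝ) ^ k) * d k := by
    have h1 : Summable fun k : ℕ => 2 * ((2 : ℝ) ^ k * (apx T (2 ^ k) / √(((2 ^ k : ℕ) : ℝ) + 1)))
        + (1 / 2 : ℝ) ^ k := (hc.mul_left 2).add summable_geometric_two
    refine Summable.of_nonneg_of_le (fun k => mul_nonneg (Real.sqrt_nonneg _) (hd0 k)) ?_ h1
    intro k
    have hp : (1 : ℝ) ≤ 2 ^ k := one_le_pow₀ (by norm_num)
    have ha := apx_nonneg T (2 ^ k)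
    have hq : 0 < √(((2 ^ k : ℕ) : ℝ) + 1) := Real.sqrt_pos.2 (by positivity)
    have e1 : √((2 : ℝ) ^ k) * √(((2 ^ k : ℕ) : ℝ) + 1) ≤ 2 * 2 ^ k := by
      rw [← Real.sqrt_mul (by positivity), Real.sqrt_le_left (by positivity)]
      push_cast
      nlinarith
    have e2 : √((2 : ℝ) ^ k) ≤ 2 ^ k := by
      rw [Real.sqrt_le_left (by positivity)]
      nlinarith
    have e3 : √((2 : ℝ) ^ k) * apx T (2 ^ k) ≤
        2 * ((2 : ℝ) ^ k * (apx T (2 ^ k) / √(((2 ^ k : ℕ) : ℝ) + 1))) := by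
      rw [← mul_assoc, mul_div_assoc', le_div_iff₀ hq]
      nlinarith
    have e4 : √((2 : ℝ) ^ k) * (1 / 4 : ℝ) ^ k ≤ (1 / 2 : ℝ) ^ k := by
      calc √((2 : ℝ) ^ k) * (1 / 4 : ℝ) ^ k ≤ 2 ^ k * (1 / 4 : ℝ) ^ k := by gcongr
        _ = (1 / 2 : ℝ) ^ k := by rw [← mul_pow]; norm_num
    simp only [hd]
    nlinarith
  have hdlim : Tendsto d atTop (𝓝 0) := by
    refine squeeze_zero hd0 (fun k => ?_) hs.tendsto_atTop_zero
    have hp : (1 : ℝ) ≤ √((2 : ℝ) ^ k) := Real.one_le_sqrt.2 (one_le_pow₀ (by norm_num))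
    nlinarith [hd0 k]
  choose F hF hF' using fun k : ℕ => apx_exists T (2 ^ k) ((1 / 4 : ℝ) ^ k) (by positivity)
  refine ⟨F, d, hd0, hs, hdlim, hF, hF', fun k => ?_, fun k => ?_⟩
  · have h1 := LinearMap.rank_add_le ((F (k + 1) : H →L[ℂ] H) : H →ₗ[ℂ] H)
      (-((F k : H →L[ℂ] H) : H →ₗ[ℂ] H))
    have h2 : LinearMap.rank (-((F k : H →L[ℂ] H) : H →ₗ[ℂ] H)) ≤ ((2 ^ k : ℕ) : Cardinal) := by
      unfold LinearMap.rank
      rw [LinearMap.range_neg]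
      exact hF k
    have h3 : ((F (k + 1) - F k : H →L[ℂ] H) : H →ₗ[ℂ] H) =
        ((F (k + 1) : H →L[ℂ] H) : H →ₗ[ℂ] H) + (-((F k : H →L[ℂ] H) : H →ₗ[ℂ] H)) := by
      ext v; simp [sub_eq_add_neg]
    rw [h3]
    refine h1.trans ((add_le_add (hF (k + 1)) h2).trans ?_)
    have : 2 ^ (k + 1) + 2 ^ k ≤ 4 * 2 ^ k := by rw [pow_succ]; omega
    exact_mod_cast this
  · have : F (k + 1) - F k = (T - F k) - (T - F (k + 1)) := by abel
    rw [this]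
    have h1 : ‖T - F k‖ ≤ d k := hF' k
    have h2 : ‖T - F (k + 1)‖ ≤ d (k + 1) := hF' (k + 1)
    linarith [norm_sub_le (T - F k) (T - F (k + 1)), hdm k]

theorem decay_fin (u : ℂ → H) (hu : ∀ y : H, Tendsto (fun w => ⟪y, u w⟫_ℂ) (cocompact ℂ) (𝓝 0))
    (G : H →L[ℂ] H) (r : ℕ)
    (hr : Module.rank ℂ (LinearMap.range (G : H →ₗ[ℂ] H)) ≤ (r : Cardinal)) :
    Tendsto (fun w => ‖G (u w)‖) (cocompact ℂ) (𝓝 0) := by
  set K : Submodule ℂ H := LinearMap.range (G : H →ₗ[ℂ] H) with hK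
  have hfin : Module.Finite ℂ K :=
    Module.rank_lt_aleph0_iff.1 (lt_of_le_of_lt hr (Cardinal.natCast_lt_aleph0))
  set b := stdOrthonormalBasis ℂ K with hb
  have h3 : ∀ v, ‖G v‖ = √(∑ i, ‖⟪ContinuousLinearMap.adjoint G (b i : H), v⟫_ℂ‖ ^ 2) := by
    intro v
    have h2 := b.sum_sq_norm_inner_right (⟨G v, ⟨v, rfl⟩⟩ : K)
    simp_rw [ContinuousLinearMap.adjoint_inner_left]
    have h4 : ∑ i, ‖⟪(b i : H), G v⟫_ℂ‖ ^ 2 = ‖G v‖ ^ 2 := h2
    rw [h4, Real.sqrt_sq (norm_nonneg _)]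
  simp_rw [h3]
  have h5 := (tendsto_finsetSum Finset.univ
    (fun i _ => ((hu (ContinuousLinearMap.adjoint G (b i : H))).norm.pow 2))).sqrt
  simpa using h5

theorem decay (u : ℂ → H) (hu : ∀ y : H, Tendsto (fun w => ⟪y, u w⟫_ℂ) (cocompact ℂ) (𝓝 0))
    (c : ℝ) (hc : ∀ w, ‖u w‖ ≤ c)
    (T : H →L[ℂ] H) (hT : Summable fun n : ℕ => apx T n / √((n : ℝ) + 1)) (ε : ℝ) (hε : 0 < ε) :
    ∃ R : ℝ, ∀ w, R ≤ ‖w‖ → ‖T (u w)‖ ≤ ε := by
  obtain ⟨F, d, hd0, -, hd, hF, hF', -, -⟩ := dyadic T hT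
  have h1 : Tendsto (fun k => d k * c) atTop (𝓝 0) := by simpa using hd.mul_const c
  obtain ⟨k, hk⟩ := (h1.eventually (ge_mem_nhds (half_pos hε))).exists
  obtain ⟨R, hR⟩ := ev_norm ((decay_fin u hu (F k) _ (hF k)).eventually (ge_mem_nhds (half_pos hε)))
  refine ⟨R, fun w hw => ?_⟩
  have h2 : T (u w) = F k (u w) + (T - F k) (u w) := by simp
  have h3 : ‖(T - F k) (u w)‖ ≤ d k * c :=
    ((T - F k).le_opNorm _).trans (mul_le_mul (hF' k) (hc w) (norm_nonneg _) (hd0 k))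
  rw [h2]
  linarith [norm_add_le (F k (u w)) ((T - F k) (u w)), hR w hw]

/-- integration over all rays from the origin -/
noncomputable def rayInt (G : ℂ → ℝ≥0∞) : ℝ≥0∞ :=
  ∫⁻ p in polarCoord.target, G (Complex.polarCoord.symm p)

theorem polar_cont : Continuous fun p : ℝ × ℝ => (Complex.polarCoord.symm p : ℂ) := by
  simp only [Complex.polarCoord_symm_apply]
  fun_prop

theorem rayInt_mono {G G' : ℂ → ℝ≥0∞} (h : ∀ z, G z ≤ G' z) : rayInt G ≤ rayInt G' :=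
  lintegral_mono fun _ => h _

theorem rayInt_add {G G' : ℂ → ℝ≥0∞} (h : Measurable G) :
    rayInt (fun z => G z + G' z) = rayInt G + rayInt G' :=
  lintegral_add_left (h.comp polar_cont.measurable) _

theorem rayInt_le (G : ℂ → ℝ≥0∞) (ρ : ℝ) (hρ : 0 < ρ) (m : ℝ≥0∞)
    (hm : ∀ z, ‖z‖ ≤ ρ → G z ≤ m) :
    rayInt G ≤ m * ENNReal.ofReal (2 * π * ρ) + ENNReal.ofReal ρ⁻¹ * ∫⁻ z, G z := by
  rw [← Complex.lintegral_comp_polarCoord_symm G, ← lintegral_const_mul' _ _ ENNReal.ofReal_ne_top]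
  have hS : MeasurableSet (Ioc (0 : ℝ) ρ ×ˢ Ioo (-π) π) := measurableSet_Ioc.prod measurableSet_Ioo
  have h1 : ∫⁻ p in polarCoord.target, (Ioc (0 : ℝ) ρ ×ˢ Ioo (-π) π).indicator (fun _ => m) p ≤
      m * ENNReal.ofReal (2 * π * ρ) := by
    refine (setLIntegral_le_lintegral _ _).trans ?_
    rw [lintegral_indicator_const hS, Measure.volume_eq_prod, Measure.prod_prod, Real.volume_Ioc,
      Real.volume_Ioo, ← ENNReal.ofReal_mul (by linarith)]
    apply le_of_eq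
    congr 2
    ring
  refine le_trans ?_ (add_le_add h1 le_rfl)
  rw [← lintegral_add_left (measurable_const.indicator hS)]
  refine setLIntegral_mono' polarCoord.open_target.measurableSet fun p hp => ?_
  rw [polarCoord_target] at hp
  have hp1 : 0 < p.1 := hp.1
  by_cases h : p.1 ≤ ρ
  · rw [indicator_of_mem (show p ∈ Ioc (0 : ℝ) ρ ×ˢ Ioo (-π) π from ⟨⟨hp1, h⟩, hp.2⟩)]
    refine le_add_right (hm _ ?_)
    rw [Complex.norm_polarCoord_symm, abs_of_pos hp1]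
    exact h
  · refine le_add_left ?_
    rw [smul_eq_mul, ← mul_assoc, ← ENNReal.ofReal_mul (by positivity)]
    refine le_mul_of_one_le_left' ?_
    rw [ENNReal.one_le_ofReal, inv_mul_eq_div, one_le_div hρ]
    exact (not_le.1 h).le

theorem le_rayInt (G : ℂ → ℝ) (hG : Continuous G) (hG0 : ∀ z, 0 ≤ G z) (Φ : ℝ)
    (h : ∀ θ η : ℝ, 0 < η → ∃ ρ : ℝ, 0 < ρ ∧
      Φ ≤ η + ∫ r in (0 : ℝ)..ρ, G (Complex.polarCoord.symm (r, θ))) :
    ENNReal.ofReal Φ * ENNReal.ofReal (2 * π) ≤ rayInt fun z => ENNReal.ofReal (G z) := by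
  unfold rayInt
  rw [polarCoord_target, Measure.volume_eq_prod, ← Measure.prod_restrict, lintegral_prod_symm]
  swap
  · exact (hG.comp polar_cont).measurable.ennreal_ofReal.aemeasurable
  have h1 : ∀ θ : ℝ, ENNReal.ofReal Φ ≤
      ∫⁻ r in Ioi (0 : ℝ), ENNReal.ofReal (G (Complex.polarCoord.symm (r, θ))) := by
    intro θ
    refine ENNReal.le_of_forall_pos_le_add fun η hη _ => ?_
    obtain ⟨ρ, hρ, h2⟩ := h θ η hη
    have hc : Continuous fun r : ℝ => G (Complex.polarCoord.symm (r, θ)) :=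
      (hG.comp polar_cont).comp (f := fun r : ℝ => (r, θ)) (by fun_prop)
    refine (ENNReal.ofReal_le_ofReal h2).trans (ENNReal.ofReal_add_le.trans ?_)
    rw [add_comm, ENNReal.ofReal_coe_nnreal]
    gcongr
    rw [intervalIntegral.integral_of_le hρ.le, ofReal_integral_eq_lintegral_ofReal]
    · exact lintegral_mono_set Ioc_subset_Ioi_self
    · exact hc.integrableOn_Icc.mono_set Ioc_subset_Icc_self
    · exact Eventually.of_forall fun r => hG0 _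
  refine le_trans (le_of_eq ?_) (lintegral_mono h1)
  rw [setLIntegral_const, Real.volume_Ioo]
  congr 2
  ring

end Pool.Agent.H78Z.WO
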