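import Pool.Agent.H78Z.WO.G

set_option autoImplicit false

open MeasureTheory Filter Topology Set
open scoped ENNReal NNReal InnerProductSpace Real

namespace Pool.Agent.H78Z.WO

variable {H : Type*} [NormedAddCommGroup H] [InnerProductSpace ℂ H] [CompleteSpace H]

theorem bil_L1 (u : ℂ → H) (hu : Continuous u) (C : ℝ≥0)
    (hC : ∀ y : H, eLpNorm (fun w => ⟪y, u w⟫_ℂ) 2 volume ^ 2 ≤ C * ‖y‖ₑ ^ 2)
    (G : H →L[ℂ] H) (r : ℕ)
    (hr : Module.rank ℂ (LinearMap.range (G : H →ₗ[ℂ] H)) ≤ (r : Cardinal))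
    (Y : H →L[ℂ] H) (hY : ‖Y‖ ≤ 1) (a b : ℂ) :
    ∫⁻ τ, ‖⟪G (u (τ + a)), Y (u (τ + b))⟫_ℂ‖ₑ ≤ ENNReal.ofReal (C * r * ‖G‖) := by
  set K : Submodule ℂ H := LinearMap.range (G : H →ₗ[ℂ] H) with hK
  have hfin : Module.Finite ℂ K :=
    Module.rank_lt_aleph0_iff.1 (lt_of_le_of_lt hr (Cardinal.natCast_lt_aleph0))
  set P : H →L[ℂ] H := K.starProjection ∘L Y with hP
  have hPr : Module.rank ℂ (LinearMap.range (P : H →ₗ[ℂ] H)) ≤ (r : Cardinal) := by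
    refine le_trans (Submodule.rank_mono ?_) hr
    rintro _ ⟨v, rfl⟩
    exact K.starProjection_apply_mem _
  have hPn : ‖P‖ ≤ 1 := by
    refine (ContinuousLinearMap.opNorm_comp_le _ _).trans ?_
    exact mul_le_one₀ K.starProjection_norm_le (norm_nonneg _) hY
  have h1 : ∀ v v' : H, ‖⟪G v, Y v'⟫_ℂ‖ₑ ≤ ‖G v‖ₑ * ‖P v'‖ₑ := by
    intro v v'
    have h2 : ⟪G v, Y v'⟫_ℂ = ⟪G v, P v'⟫_ℂ := by
      have h3 : K.starProjection (G v) = G v := K.starProjection_eq_self_iff.2 ⟨v, rfl⟩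
      rw [hP, ContinuousLinearMap.comp_apply, ← K.inner_starProjection_left_eq_right, h3]
    rw [h2, ← ofReal_norm, ← ofReal_norm, ← ofReal_norm, ← ENNReal.ofReal_mul (norm_nonneg _)]
    exact ENNReal.ofReal_le_ofReal (norm_inner_le_norm _ _)
  have hshift : ∀ (Q : H →L[ℂ] H) (a : ℂ), eLpNorm (fun τ => Q (u (τ + a))) 2 volume =
      eLpNorm (fun τ => Q (u τ)) 2 volume := fun Q a =>
    eLpNorm_comp_measurePreserving (g := fun τ => Q (u τ)) (f := fun τ => τ + a)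
      (Q.continuous.comp hu).aestronglyMeasurable (measurePreserving_add_right volume a)
  have hm : ∀ (Q : H →L[ℂ] H) (a : ℂ), AEMeasurable (fun τ => ‖Q (u (τ + a))‖ₑ) volume := by
    intro Q a
    have : Continuous fun τ => Q (u (τ + a)) := by fun_prop
    exact this.enorm.measurable.aemeasurable
  have hH := ENNReal.lintegral_mul_le_Lp_mul_Lq (volume : Measure ℂ) Real.HolderConjugate.two_two
    (hm G a) (hm P b)
  have hE : ∀ (Q : H →L[ℂ] H) (a : ℂ), (∫⁻ τ, ‖Q (u (τ + a))‖ₑ ^ (2 : ℝ)) ^ (1 / (2 : ℝ)) =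
      eLpNorm (fun τ => Q (u τ)) 2 volume := by
    intro Q a
    rw [← hshift Q a, eLpNorm_eq_lintegral_rpow_enorm_toReal (by norm_num) (by norm_num)]
    simp
  rw [hE, hE] at hH
  refine (lintegral_mono fun τ => h1 _ _).trans (hH.trans ?_)
  refine (mul_le_mul' (finite_rank_bound u hu C hC G r hr)
    (finite_rank_bound u hu C hC P r hPr)).trans ?_
  rw [← ENNReal.ofReal_mul (by positivity)]
  apply ENNReal.ofReal_le_ofReal
  have h4 : √((C : ℝ) * r) * √((C : ℝ) * r) = C * r := Real.mul_self_sqrt (by positivity)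
  calc √((C : ℝ) * r) * ‖G‖ * (√((C : ℝ) * r) * ‖P‖)
      = (√((C : ℝ) * r) * √((C : ℝ) * r)) * ‖G‖ * ‖P‖ := by ring
    _ ≤ (C * r) * ‖G‖ * 1 := by rw [h4]; gcongr
    _ = _ := mul_one _

theorem bil_ray (u : ℂ → H) (hu : Continuous u) (C : ℝ≥0)
    (hC : ∀ y : H, eLpNorm (fun w => ⟪y, u w⟫_ℂ) 2 volume ^ 2 ≤ C * ‖y‖ₑ ^ 2)
    (c : ℝ) (hc : ∀ w, ‖u w‖ ≤ c) (G : H →L[ℂ] H) (r : ℕ)
    (hr : Module.rank ℂ (LinearMap.range (G : H →ₗ[ℂ] H)) ≤ (r : Cardinal))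
    (Y : H →L[ℂ] H) (hY : ‖Y‖ ≤ 1) (a b : ℂ) (ρ : ℝ) (hρ : 0 < ρ) (m : ℝ) (hm0 : 0 ≤ m)
    (hm : ∀ τ : ℂ, ‖τ‖ ≤ ρ → ‖G (u (τ + a))‖ ≤ m) :
    rayInt (fun τ => ‖⟪G (u (τ + a)), Y (u (τ + b))⟫_ℂ‖ₑ) ≤
      ENNReal.ofReal (m * c * (2 * π * ρ) + ρ⁻¹ * (C * r * ‖G‖)) := by
  have hc0 : 0 ≤ c := (norm_nonneg _).trans (hc 0)
  have hpi := Real.pi_pos
  refine (rayInt_le _ ρ hρ (ENNReal.ofReal (m * c)) fun τ hτ => ?_).trans ?_
  · rw [← ofReal_norm]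
    apply ENNReal.ofReal_le_ofReal
    refine (norm_inner_le_norm _ _).trans (mul_le_mul (hm τ hτ) ?_ (norm_nonneg _) hm0)
    refine (Y.le_opNorm _).trans ?_
    calc ‖Y‖ * ‖u (τ + b)‖ ≤ 1 * c := mul_le_mul hY (hc _) (norm_nonneg _) zero_le_one
      _ = c := one_mul _
  · rw [ENNReal.ofReal_add (by positivity) (by positivity), ENNReal.ofReal_mul (p := m * c)
      (by positivity), ENNReal.ofReal_mul (p := ρ⁻¹) (by positivity)]
    gcongr
    exact bil_L1 u hu C hC G r hr Y hY a b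

theorem bil_main (u : ℂ → H) (hu : Continuous u) (C : ℝ≥0)
    (hC : ∀ y : H, eLpNorm (fun w => ⟪y, u w⟫_ℂ) 2 volume ^ 2 ≤ C * ‖y‖ₑ ^ 2)
    (hu0 : ∀ y : H, Tendsto (fun w => ⟪y, u w⟫_ℂ) (cocompact ℂ) (𝓝 0))
    (c : ℝ) (hc : ∀ w, ‖u w‖ ≤ c)
    (T : H →L[ℂ] H) (hT : Summable fun n : ℕ => apx T n / √((n : ℝ) + 1)) (η : ℝ) (hη : 0 < η) :
    ∃ R : ℝ, ∀ (a b : ℂ) (Y : H →L[ℂ] H), R ≤ ‖a‖ → ‖Y‖ ≤ 1 →
      rayInt (fun τ => ‖⟪T (u (τ + a)), Y (u (τ + b))⟫_ℂ‖ₑ) ≤ ENNReal.ofReal η := by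
  obtain ⟨F, d, hd0, hs, hd, hF, hF', hG, hG'⟩ := dyadic T hT
  have hc0 : 0 ≤ c := (norm_nonneg _).trans (hc 0)
  have hpi := Real.pi_pos
  set κ : ℝ := 4 * π * c ^ 2 + 8 * C with hκ
  have hκ0 : 0 ≤ κ := by positivity
  have hs' : Summable fun k : ℕ => κ * (√((2 : ℝ) ^ k) * d k) := hs.mul_left κ
  obtain ⟨m, hm⟩ := ((tendsto_sum_nat_add (fun k : ℕ => κ * (√((2 : ℝ) ^ k) * d k))).eventually
    (ge_mem_nhds (by positivity : 0 < η / 3))).exists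
  -- the radius
  obtain ⟨ρ, hρ, hρ'⟩ : ∃ ρ : ℝ, 0 < ρ ∧ ρ⁻¹ * (C * ((2 ^ m : ℕ) : ℝ) * ‖F m‖) ≤ η / 3 := by
    have h1 : Tendsto (fun ρ : ℝ => ρ⁻¹ * (C * ((2 ^ m : ℕ) : ℝ) * ‖F m‖)) atTop (𝓝 0) := by
      simpa using tendsto_inv_atTop_zero.mul_const (C * ((2 ^ m : ℕ) : ℝ) * ‖F m‖)
    exact ((eventually_gt_atTop 0).and (h1.eventually (ge_mem_nhds (by positivity)))).exists
  obtain ⟨δ, hδ, hδ'⟩ : ∃ δ : ℝ, 0 < δ ∧ δ * c * (2 * π * ρ) ≤ η / 3 := by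
    refine ⟨η / 3 / (c * (2 * π * ρ) + 1), by positivity, ?_⟩
    rw [mul_assoc, div_mul_eq_mul_div, div_le_iff₀ (by positivity)]
    nlinarith
  obtain ⟨R, hR⟩ := ev_norm ((decay_fin u hu0 (F m) _ (hF m)).eventually (ge_mem_nhds hδ))
  refine ⟨R + ρ, fun a b Y ha hY => ?_⟩
  have hcont : ∀ Q : H →L[ℂ] H, Continuous fun τ => ‖⟪Q (u (τ + a)), Y (u (τ + b))⟫_ℂ‖ₑ := by
    intro Q
    have : Continuous fun τ => ⟪Q (u (τ + a)), Y (u (τ + b))⟫_ℂ := by fun_prop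
    exact this.enorm
  have h0 : rayInt (fun τ => ‖⟪F m (u (τ + a)), Y (u (τ + b))⟫_ℂ‖ₑ) ≤
      ENNReal.ofReal (η / 3 + η / 3) := by
    refine (bil_ray u hu C hC c hc (F m) _ (hF m) Y hY a b ρ hρ δ hδ.le fun τ hτ => ?_).trans
      (ENNReal.ofReal_le_ofReal (add_le_add hδ' hρ'))
    apply hR
    have := norm_sub_le (τ + a) τ
    rw [add_sub_cancel_left] at this
    linarith
  have hstep : ∀ k, rayInt (fun τ => ‖⟪(F (k + 1) - F k) (u (τ + a)), Y (u (τ + b))⟫_ℂ‖ₑ) ≤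
      ENNReal.ofReal (κ * (√((2 : ℝ) ^ k) * d k)) := by
    intro k
    have hq : 0 < √((2 : ℝ) ^ k) := Real.sqrt_pos.2 (by positivity)
    have hdk := hd0 k
    refine (bil_ray u hu C hC c hc _ _ (hG k) Y hY a b _ hq (2 * d k * c) (by positivity)
      fun τ _ => ?_).trans (ENNReal.ofReal_le_ofReal ?_)
    · exact ((F (k + 1) - F k).le_opNorm _).trans
        (mul_le_mul (hG' k) (hc _) (norm_nonneg _) (by positivity))
    · have h1 : ((4 * 2 ^ k : ℕ) : ℝ) = 4 * (√((2 : ℝ) ^ k) * √((2 : ℝ) ^ k)) := by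
        rw [Real.mul_self_sqrt (by positivity)]; push_cast; ring
      rw [h1]
      set q := √((2 : ℝ) ^ k)
      have h2 : q⁻¹ * (C * (4 * (q * q)) * ‖F (k + 1) - F k‖) = 4 * C * q * ‖F (k + 1) - F k‖ := by
        field_simp
      rw [h2]
      have h3 : 4 * C * q * ‖F (k + 1) - F k‖ ≤ 4 * C * q * (2 * d k) := by
        have := hG' k
        gcongr
      have h4 : 2 * d k * c * c * (2 * π * q) + 4 * C * q * (2 * d k) = κ * (q * d k) := by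
        rw [hκ]; ring
      linarith
  have hall : ∀ n, rayInt (fun τ => ‖⟪F (n + m) (u (τ + a)), Y (u (τ + b))⟫_ℂ‖ₑ) ≤
      ENNReal.ofReal (η / 3 + η / 3 +
        ∑ k ∈ Finset.range n, κ * (√((2 : ℝ) ^ (k + m)) * d (k + m))) := by
    intro n
    induction n with
    | zero => simpa using h0
    | succ n ih =>
      rw [Finset.sum_range_succ, ← add_assoc, ENNReal.ofReal_add]
      · refine le_trans ?_ (add_le_add ih (hstep (n + m)))
        rw [← rayInt_add (hcont _).measurable]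
        refine rayInt_mono fun τ => ?_
        refine le_trans (le_of_eq ?_) (enorm_add_le _ _)
        rw [← inner_add_left, show n + 1 + m = n + m + 1 by ring]
        congr 2
        simp
      · exact add_nonneg (by positivity)
          (Finset.sum_nonneg fun k _ => by have := hd0 (k + m); positivity)
      · have := hd0 (n + m); positivity
  have hall' : ∀ n, rayInt (fun τ => ‖⟪F (n + m) (u (τ + a)), Y (u (τ + b))⟫_ℂ‖ₑ) ≤
      ENNReal.ofReal η := by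
    intro n
    refine (hall n).trans (ENNReal.ofReal_le_ofReal ?_)
    have h1 := ((summable_nat_add_iff m).2 hs').sum_le_tsum (Finset.range n)
      (fun k _ => by have := hd0 (k + m); positivity)
    linarith
  have hlim : ∀ τ, Tendsto (fun n => ‖⟪F (n + m) (u (τ + a)), Y (u (τ + b))⟫_ℂ‖ₑ) atTop
      (𝓝 ‖⟪T (u (τ + a)), Y (u (τ + b))⟫_ℂ‖ₑ) := by
    intro τ
    have h1 : Tendsto (fun n => F n (u (τ + a))) atTop (𝓝 (T (u (τ + a)))) := by
      rw [tendsto_iff_norm_sub_tendsto_zero]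
      refine squeeze_zero (fun _ => norm_nonneg _) (fun m => ?_)
        (by simpa using hd.mul_const ‖u (τ + a)‖)
      rw [norm_sub_rev, ← sub_apply]
      exact ((T - F m).le_opNorm _).trans (mul_le_mul_of_nonneg_right (hF' m) (norm_nonneg _))
    exact (((h1.comp (tendsto_add_atTop_nat m)).inner tendsto_const_nhds)).enorm
  calc rayInt (fun τ => ‖⟪T (u (τ + a)), Y (u (τ + b))⟫_ℂ‖ₑ)
      = ∫⁻ p in polarCoord.target, liminf (fun n => ‖⟪F (n + m)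
          (u (Complex.polarCoord.symm p + a)), Y (u (Complex.polarCoord.symm p + b))⟫_ℂ‖ₑ) atTop := by
        unfold rayInt
        congr 1
        ext p
        exact ((hlim _).liminf_eq).symm
    _ ≤ liminf (fun n => rayInt (fun τ => ‖⟪F (n + m) (u (τ + a)), Y (u (τ + b))⟫_ℂ‖ₑ)) atTop :=
        lintegral_liminf_le fun n => ((hcont (F (n + m))).comp polar_cont).measurable
    _ ≤ ENNReal.ofReal η := liminf_le_of_frequently_le' (Frequently.of_forall hall')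

end Pool.Agent.H78Z.WO
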