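import Pool.Agent.H78Z.WO.F
import Pool.Agent.H78Z.WO.I

set_option autoImplicit false

open MeasureTheory Filter Topology Set
open scoped ENNReal NNReal InnerProductSpace Real

namespace Pool.Agent.H78Z.WO

variable {H : Type*} [NormedAddCommGroup H] [InnerProductSpace ℂ H] [CompleteSpace H]

/-- the group in Fourier normalisation -/
noncomputable def VV (A₁ A₂ : H →L[ℂ] H) (w : ℂ) : H →L[ℂ] H :=
  grp A₁ A₂ (-(2 * π * w.re)) (-(2 * π * w.im))

theorem skew_gen {B₁ B₂ : H →L[ℂ] H} (hB₁ : IsSelfAdjoint B₁) (hB₂ : IsSelfAdjoint B₂)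
    (s t : ℝ) (v w : H) :
    ⟪(((s : ℂ) * Complex.I) • B₁ + ((t : ℂ) * Complex.I) • B₂) v, w⟫_ℂ =
      -⟪v, (((s : ℂ) * Complex.I) • B₁ + ((t : ℂ) * Complex.I) • B₂) w⟫_ℂ := by
  have h1 : ⟪B₁ v, w⟫_ℂ = ⟪v, B₁ w⟫_ℂ := hB₁.isSymmetric v w
  have h2 : ⟪B₂ v, w⟫_ℂ = ⟪v, B₂ w⟫_ℂ := hB₂.isSymmetric v w
  simp only [add_apply, smul_apply, inner_add_left, inner_add_right, inner_smul_left,
    inner_smul_right, h1, h2, map_mul, Complex.conj_ofReal, Complex.conj_I]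
  ring

theorem radial_deriv {A₁ A₂ B₁ B₂ : H →L[ℂ] H} (hB₁ : IsSelfAdjoint B₁) (hB₂ : IsSelfAdjoint B₂)
    (hA : Commute A₁ A₂) (Y : H →L[ℂ] H)
    (hY : ∀ p q : ℂ, Commute (p • B₁ + q • B₂) Y) (x : H) (a b : ℂ) (θ ρ : ℝ) :
    ∃ D : ℂ, HasDerivAt (fun r : ℝ => ⟪VV A₁ A₂ (Complex.polarCoord.symm (r, θ) + a) x,
        Y (VV A₁ A₂ (Complex.polarCoord.symm (r, θ) + b) x)⟫_ℂ) D ρ ∧
      ‖D‖ ≤ 2 * π * (
        (‖⟪(A₁ - B₁) (VV A₁ A₂ (Complex.polarCoord.symm (ρ, θ) + a) x),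
          Y (VV A₁ A₂ (Complex.polarCoord.symm (ρ, θ) + b) x)⟫_ℂ‖ +
        ‖⟪(A₂ - B₂) (VV A₁ A₂ (Complex.polarCoord.symm (ρ, θ) + a) x),
          Y (VV A₁ A₂ (Complex.polarCoord.symm (ρ, θ) + b) x)⟫_ℂ‖) +
        (‖⟪(A₁ - B₁) (VV A₁ A₂ (Complex.polarCoord.symm (ρ, θ) + b) x),
          ContinuousLinearMap.adjoint Y (VV A₁ A₂ (Complex.polarCoord.symm (ρ, θ) + a) x)⟫_ℂ‖ +
        ‖⟪(A₂ - B₂) (VV A₁ A₂ (Complex.polarCoord.symm (ρ, θ) + b) x),
          ContinuousLinearMap.adjoint Y (VV A₁ A₂ (Complex.polarCoord.symm (ρ, θ) + a) x)⟫_ℂ‖)) := by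
  set s' : ℝ := -(2 * π * Real.cos θ) with hs'
  set t' : ℝ := -(2 * π * Real.sin θ) with ht'
  set M : H →L[ℂ] H := ((s' : ℂ) * Complex.I) • A₁ + ((t' : ℂ) * Complex.I) • A₂ with hM
  set N : H →L[ℂ] H := ((s' : ℂ) * Complex.I) • B₁ + ((t' : ℂ) * Complex.I) • B₂ with hN
  have hd : ∀ a : ℂ, HasDerivAt (fun r : ℝ => VV A₁ A₂ (Complex.polarCoord.symm (r, θ) + a) x)
      (M (VV A₁ A₂ (Complex.polarCoord.symm (ρ, θ) + a) x)) ρ := by
    intro a
    have e : ∀ r : ℝ, VV A₁ A₂ (Complex.polarCoord.symm (r, θ) + a) =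
        grp A₁ A₂ (-(2 * π * (r * Real.cos θ + a.re))) (-(2 * π * (r * Real.sin θ + a.im))) := by
      intro r
      simp [VV, Complex.cos_ofReal_re, Complex.sin_ofReal_re]
    simp_rw [e]
    have h1 : HasDerivAt (fun r : ℝ => -(2 * π * (r * Real.cos θ + a.re))) s' ρ := by
      have := ((((hasDerivAt_id ρ).mul_const (Real.cos θ)).add_const a.re).const_mul (2 * π)).neg
      exact HasDerivAt.congr_deriv this (by simp [hs'])
    have h2 : HasDerivAt (fun r : ℝ => -(2 * π * (r * Real.sin θ + a.im))) t' ρ := by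
      have := ((((hasDerivAt_id ρ).mul_const (Real.sin θ)).add_const a.im).const_mul (2 * π)).neg
      exact HasDerivAt.congr_deriv this (by simp [ht'])
    exact ((ContinuousLinearMap.apply ℂ H x).restrictScalars ℝ).hasFDerivAt.comp_hasDerivAt
      ρ (grp_deriv hA h1 h2)
  have hd2 := (Y.restrictScalars ℝ).hasFDerivAt.comp_hasDerivAt ρ (hd b)
  refine ⟨_, HasDerivAt.inner ℂ (hd a) hd2, ?_⟩
  set v := VV A₁ A₂ (Complex.polarCoord.symm (ρ, θ) + a) x with hv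
  set w := VV A₁ A₂ (Complex.polarCoord.symm (ρ, θ) + b) x with hw
  have hz : ⟪v, Y (N w)⟫_ℂ + ⟪N v, Y w⟫_ℂ = 0 := by
    have h1 : Y (N w) = N (Y w) := by
      exact (DFunLike.congr_fun (hY _ _).eq w).symm
    rw [h1, hN, skew_gen hB₁ hB₂, add_neg_cancel]
  have hMN : ∀ z, M z = N z + (((s' : ℂ) * Complex.I) • (A₁ - B₁) z +
      ((t' : ℂ) * Complex.I) • (A₂ - B₂) z) := by
    intro z
    simp only [hM, hN, add_apply, smul_apply, sub_apply]
    module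
  have hD : ⟪v, Y (M w)⟫_ℂ + ⟪M v, Y w⟫_ℂ =
      ((starRingEnd ℂ) ((s' : ℂ) * Complex.I) * ⟪(A₁ - B₁) v, Y w⟫_ℂ +
      (starRingEnd ℂ) ((t' : ℂ) * Complex.I) * ⟪(A₂ - B₂) v, Y w⟫_ℂ) +
      (((s' : ℂ) * Complex.I) * ⟪ContinuousLinearMap.adjoint Y v, (A₁ - B₁) w⟫_ℂ +
      ((t' : ℂ) * Complex.I) * ⟪ContinuousLinearMap.adjoint Y v, (A₂ - B₂) w⟫_ℂ) := by
    rw [hMN v, hMN w]
    simp only [map_add, map_smul, inner_add_left, inner_add_right, inner_smul_left,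
      inner_smul_right, ContinuousLinearMap.adjoint_inner_left]
    linear_combination hz
  have hpi := Real.pi_pos
  have b1 : ‖(s' : ℂ) * Complex.I‖ ≤ 2 * π := by
    rw [norm_mul, Complex.norm_I, mul_one, Complex.norm_real, Real.norm_eq_abs, hs', abs_neg,
      abs_mul, abs_of_pos (by positivity : 0 < 2 * π)]
    exact mul_le_of_le_one_right (by positivity) (Real.abs_cos_le_one θ)
  have b2 : ‖(t' : ℂ) * Complex.I‖ ≤ 2 * π := by
    rw [norm_mul, Complex.norm_I, mul_one, Complex.norm_real, Real.norm_eq_abs, ht', abs_neg,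
      abs_mul, abs_of_pos (by positivity : 0 < 2 * π)]
    exact mul_le_of_le_one_right (by positivity) (Real.abs_sin_le_one θ)
  change ‖⟪v, Y (M w)⟫_ℂ + ⟪M v, Y w⟫_ℂ‖ ≤ _
  rw [hD, mul_add, mul_add, mul_add, norm_inner_symm ((A₁ - B₁) w), norm_inner_symm ((A₂ - B₂) w)]
  refine (norm_add_le _ _).trans (add_le_add ((norm_add_le _ _).trans (add_le_add ?_ ?_))
    ((norm_add_le _ _).trans (add_le_add ?_ ?_)))
  · rw [norm_mul, Complex.norm_conj]; gcongr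
  · rw [norm_mul, Complex.norm_conj]; gcongr
  · rw [norm_mul]; gcongr
  · rw [norm_mul]; gcongr

theorem wave_diff {A₁ A₂ B₁ B₂ : H →L[ℂ] H} (hB₁ : IsSelfAdjoint B₁) (hB₂ : IsSelfAdjoint B₂)
    (hA : Commute A₁ A₂) (hB : Commute B₁ B₂) (v : H) (s t ε : ℝ)
    (h : ∀ σ ∈ uIcc s t, ‖(A₁ - B₁) (grp A₁ A₂ σ 0 v)‖ ≤ ε) :
    ‖grp B₁ B₂ (-t) 0 (grp A₁ A₂ t 0 v) - grp B₁ B₂ (-s) 0 (grp A₁ A₂ s 0 v)‖ ≤ ε * |t - s| := by
  have hd : ∀ σ : ℝ, HasDerivAt (fun σ : ℝ => grp B₁ B₂ (-σ) 0 (grp A₁ A₂ σ 0 v))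
      (grp B₁ B₂ (-σ) 0 (Complex.I • (A₁ - B₁) (grp A₁ A₂ σ 0 v))) σ := by
    intro σ
    have h1 := ((ContinuousLinearMap.apply ℂ H v).restrictScalars ℝ).hasFDerivAt.comp_hasDerivAt
      σ ((grp_deriv hB (hasDerivAt_neg σ) (hasDerivAt_const σ (0 : ℝ))).mul
        (grp_deriv hA (hasDerivAt_id σ) (hasDerivAt_const σ (0 : ℝ))))
    refine HasDerivAt.congr_deriv h1 ?_
    rw [(grp_comm hB _ _ _ _).eq]
    simp [sub_eq_neg_add]
  have := (convex_uIcc s t).norm_image_sub_le_of_norm_hasDerivWithin_le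
    (f := fun σ : ℝ => grp B₁ B₂ (-σ) 0 (grp A₁ A₂ σ 0 v)) (C := ε)
    (fun σ _ => (hd σ).hasDerivWithinAt) (fun σ hσ => by
      rw [grp_norm hB₁ hB₂ hB, norm_smul, Complex.norm_I, one_mul]; exact h σ hσ)
    left_mem_uIcc right_mem_uIcc
  simpa using this

theorem main2 (A₁ A₂ B₁ B₂ : H →L[ℂ] H)
    (hA₁ : IsSelfAdjoint A₁) (hA₂ : IsSelfAdjoint A₂) (hB₁ : IsSelfAdjoint B₁)
    (hB₂ : IsSelfAdjoint B₂) (hA : Commute A₁ A₂) (hB : Commute B₁ B₂)
    (hK₁ : Summable fun n : ℕ => apx (A₁ - B₁) n / √((n : ℝ) + 1))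
    (hK₂ : Summable fun n : ℕ => apx (A₂ - B₂) n / √((n : ℝ) + 1))
    (hac : ∀ x : H, ∃ f : ℝ × ℝ → ℂ, Integrable f ∧ ∀ s t : ℝ, ⟪x, grp A₁ A₂ s t x⟫_ℂ =
      ∫ p : ℝ × ℝ, f p * Complex.exp (Complex.I * ((s : ℂ) * (p.1 : ℂ) + (t : ℂ) * (p.2 : ℂ))))
    (x : H) :
    ∃ y : H, Tendsto (fun t : ℝ => grp B₁ B₂ (-t) 0 (grp A₁ A₂ t 0 x)) atTop (𝓝 y) := by
  have hpi := Real.pi_pos
  have hV : ∀ (a b : ℂ) (x y : H),
      ⟪VV A₁ A₂ a x, VV A₁ A₂ b y⟫_ℂ = ⟪x, VV A₁ A₂ (b - a) y⟫_ℂ := by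
    intro a b x y
    simp only [VV]
    rw [grp_inner hA₁ hA₂ hA]
    congr 3 <;> simp <;> ring
  have h0 : ∀ x, VV A₁ A₂ 0 x = x := by
    intro x; simp [VV, grp_zero]
  have hVc : Continuous (VV A₁ A₂) :=
    (grp_cont A₁ A₂).comp (f := fun w : ℂ => (-(2 * π * w.re), -(2 * π * w.im))) (by fun_prop)
  have hac' : ∀ x : H, ∃ f : ℂ → ℂ, Integrable f ∧
      ∀ w, ⟪x, VV A₁ A₂ w x⟫_ℂ = ∫ p, ch w p * f p := by
    intro x
    obtain ⟨f, hf, hfx⟩ := hac x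
    have hmp := Complex.volume_preserving_equiv_real_prod
    refine ⟨f ∘ Complex.measurableEquivRealProd,
      (hmp.integrable_comp_emb Complex.measurableEquivRealProd.measurableEmbedding).2 hf,
      fun w => ?_⟩
    simp only [VV]
    rw [hfx, ← hmp.integral_comp']
    congr 1
    ext p
    rw [mul_comm]
    congr 1
    simp only [ch, Real.fourierChar_apply, Complex.measurableEquivRealProd_apply,
      Complex.inner]
    congr 1
    simp
    ring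
  have hRL0 : ∀ x : H, Tendsto (fun w => ⟪VV A₁ A₂ w x, x⟫_ℂ) (cocompact ℂ) (𝓝 0) := by
    intro x
    obtain ⟨f, -, hf⟩ := hac' x
    have h1 := tendsto_integral_exp_inner_smul_cocompact f
    have h2 : Tendsto (fun w => ⟪x, VV A₁ A₂ w x⟫_ℂ) (cocompact ℂ) (𝓝 0) := by
      refine h1.congr fun w => ?_
      rw [hf]
      simp [ch, Circle.smul_def]
    have h3 := (Complex.continuous_conj.tendsto 0).comp h2
    simpa [Function.comp_def] using h3
  have hRL : ∀ x y : H, Tendsto (fun w => ⟪y, VV A₁ A₂ w x⟫_ℂ) (cocompact ℂ) (𝓝 0) := by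
    intro x y
    have h1 := ((((hRL0 (x + y)).sub (hRL0 (x - y))).sub
      ((hRL0 (x + Complex.I • y)).const_mul Complex.I)).add
      ((hRL0 (x - Complex.I • y)).const_mul Complex.I)).div_const 4
    have h2 : Tendsto (fun w => ⟪VV A₁ A₂ w x, y⟫_ℂ) (cocompact ℂ) (𝓝 0) := by
      simp only [sub_self, mul_zero, add_zero, zero_div] at h1
      refine h1.congr fun w => ?_
      exact (inner_map_polarization' (VV A₁ A₂ w : H →ₗ[ℂ] H) x y).symm
    have h3 := (Complex.continuous_conj.tendsto 0).comp h2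
    simpa [Function.comp_def] using h3
  have hshift : ∀ (τ : ℂ) (t : ℝ) (x : H), grp A₁ A₂ t 0 (VV A₁ A₂ τ x) =
      VV A₁ A₂ (τ + ((-t / (2 * π) : ℝ) : ℂ)) x := by
    intro τ t x
    rw [← mul_apply_eq_comp, VV, VV, ← grp_add hA]
    congr 2
    · simp only [Complex.add_re, Complex.ofReal_re]; field_simp; ring
    · simp only [Complex.add_im, Complex.ofReal_im, add_zero, zero_add]
  -- the Cauchy property for good vectors
  have hgood : ∀ (x' : H) (C : ℝ≥0),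
      (∀ y : H, eLpNorm (fun w => ⟪y, VV A₁ A₂ w x'⟫_ℂ) 2 volume ^ 2 ≤ C * ‖y‖ₑ ^ 2) →
      ∀ ε : ℝ, 0 < ε → ∃ T : ℝ, ∀ s t : ℝ, T ≤ s → T ≤ t →
        ‖grp B₁ B₂ (-t) 0 (grp A₁ A₂ t 0 x') - grp B₁ B₂ (-s) 0 (grp A₁ A₂ s 0 x')‖ ≤ ε := by
    intro x' C hC ε hε
    set u : ℂ → H := fun w => VV A₁ A₂ w x' with hu
    have huc : Continuous u := by fun_prop
    have hun : ∀ w, ‖u w‖ = ‖x'‖ := fun w => grp_norm hA₁ hA₂ hA _ _ _
    obtain ⟨R₁, hR₁⟩ := bil_main u huc C hC (hRL x') ‖x'‖ (fun w => (hun w).le) _ hK₁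
      (ε ^ 2 / 8) (by positivity)
    obtain ⟨R₂, hR₂⟩ := bil_main u huc C hC (hRL x') ‖x'‖ (fun w => (hun w).le) _ hK₂
      (ε ^ 2 / 8) (by positivity)
    refine ⟨2 * π * (|R₁| + |R₂|), fun s t hs ht => ?_⟩
    set a : ℂ := ((-t / (2 * π) : ℝ) : ℂ) with ha
    set b : ℂ := ((-s / (2 * π) : ℝ) : ℂ) with hb
    have hnorm : ∀ t : ℝ, 2 * π * (|R₁| + |R₂|) ≤ t →
        |R₁| + |R₂| ≤ ‖((-t / (2 * π) : ℝ) : ℂ)‖ := by
      intro t ht
      rw [Complex.norm_real, Real.norm_eq_abs, neg_div, abs_neg]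
      refine le_trans ?_ (le_abs_self _)
      rw [le_div_iff₀ (by positivity)]
      linarith
    have ha1 : R₁ ≤ ‖a‖ := by linarith [hnorm t ht, le_abs_self R₁, abs_nonneg R₂]
    have ha2 : R₂ ≤ ‖a‖ := by linarith [hnorm t ht, le_abs_self R₂, abs_nonneg R₁]
    have hb1 : R₁ ≤ ‖b‖ := by linarith [hnorm s hs, le_abs_self R₁, abs_nonneg R₂]
    have hb2 : R₂ ≤ ‖b‖ := by linarith [hnorm s hs, le_abs_self R₂, abs_nonneg R₁]
    set Y : H →L[ℂ] H := grp B₁ B₂ (-s - -t) (0 - 0) with hY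
    have hYn : ‖Y‖ ≤ 1 := Y.opNorm_le_bound zero_le_one fun v => by
      rw [hY, grp_norm hB₁ hB₂ hB, one_mul]
    have hYn' : ‖ContinuousLinearMap.adjoint Y‖ ≤ 1 := by
      rw [LinearIsometryEquiv.norm_map]; exact hYn
    set G : ℂ → ℝ := fun τ =>
      (‖⟪(A₁ - B₁) (u (τ + a)), Y (u (τ + b))⟫_ℂ‖ + ‖⟪(A₂ - B₂) (u (τ + a)), Y (u (τ + b))⟫_ℂ‖) +
      (‖⟪(A₁ - B₁) (u (τ + b)), ContinuousLinearMap.adjoint Y (u (τ + a))⟫_ℂ‖ +
        ‖⟪(A₂ - B₂) (u (τ + b)), ContinuousLinearMap.adjoint Y (u (τ + a))⟫_ℂ‖) with hG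
    have hGc : Continuous G := by fun_prop
    have hG0 : ∀ τ, 0 ≤ G τ := fun τ => by positivity
    set Φ : ℂ → ℝ := fun τ => ‖grp B₁ B₂ (-t) 0 (grp A₁ A₂ t 0 (u τ)) -
      grp B₁ B₂ (-s) 0 (grp A₁ A₂ s 0 (u τ))‖ with hΦ
    have hΦsq : ∀ τ, Φ τ ^ 2 = 2 * ‖x'‖ ^ 2 - 2 * (⟪u (τ + a), Y (u (τ + b))⟫_ℂ).re := by
      intro τ
      simp only [hΦ]
      rw [@norm_sub_sq ℂ, grp_norm hB₁ hB₂ hB, grp_norm hB₁ hB₂ hB, grp_norm hA₁ hA₂ hA,
        grp_norm hA₁ hA₂ hA, hun, grp_inner hB₁ hB₂ hB]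
      simp only [hu]
      rw [hshift, hshift]
      simp only [RCLike.re_to_complex]
      ring
    have hray := le_rayInt G hGc hG0 (Φ 0 ^ 2 / (4 * π)) (fun θ η hη => by
      set ε' : ℝ := √(4 * π * η) / (|t - s| + 1) with hε'
      have hsq : 0 < √(4 * π * η) := Real.sqrt_pos.2 (by positivity)
      obtain ⟨R₀, hR₀⟩ := decay u (hRL x') ‖x'‖ (fun w => (hun w).le) _ hK₁ ε' (by positivity)
      set ρ : ℝ := |R₀| + (|s| + |t|) + 1 with hρ
      have hρ0 : 0 < ρ := by positivity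
      refine ⟨ρ, hρ0, ?_⟩
      have h1 : Φ (Complex.polarCoord.symm (ρ, θ)) ≤ ε' * |t - s| := by
        apply wave_diff hB₁ hB₂ hA hB
        intro σ hσ
        simp only [hu]
        rw [hshift]
        apply hR₀
        have h2 : ‖((-σ / (2 * π) : ℝ) : ℂ)‖ ≤ |s| + |t| := by
          rw [Complex.norm_real, Real.norm_eq_abs, neg_div, abs_neg, abs_div,
            abs_of_pos (by positivity : 0 < 2 * π)]
          have h3 : |σ| ≤ |s| + |t| := by
            rcases mem_uIcc.1 hσ with h | h <;>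
              · rw [abs_le]
                constructor <;>
                  linarith [h.1, h.2, le_abs_self s, le_abs_self t, neg_abs_le s, neg_abs_le t,
                    abs_nonneg s, abs_nonneg t]
          refine le_trans (div_le_self (abs_nonneg _) ?_) h3
          linarith [Real.pi_gt_three]
        have h4 := norm_sub_le (Complex.polarCoord.symm (ρ, θ) + ((-σ / (2 * π) : ℝ) : ℂ))
          ((-σ / (2 * π) : ℝ) : ℂ)
        rw [add_sub_cancel_right, Complex.norm_polarCoord_symm, abs_of_pos hρ0] at h4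
        linarith [le_abs_self R₀]
      have h2 : Φ (Complex.polarCoord.symm (ρ, θ)) ^ 2 ≤ 4 * π * η := by
        have h3 : ε' * |t - s| ≤ √(4 * π * η) := by
          rw [hε', div_mul_eq_mul_div, div_le_iff₀ (by positivity)]
          nlinarith [abs_nonneg (t - s)]
        calc Φ (Complex.polarCoord.symm (ρ, θ)) ^ 2 ≤ √(4 * π * η) ^ 2 :=
              pow_le_pow_left₀ (norm_nonneg _) (h1.trans h3) 2
          _ = 4 * π * η := Real.sq_sqrt (by positivity)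
      have hcG : Continuous fun r : ℝ => G (Complex.polarCoord.symm (r, θ)) :=
        (hGc.comp polar_cont).comp (f := fun r : ℝ => (r, θ)) (by fun_prop)
      have h5 := norm_sub_le_integral_of_norm_deriv_le_of_le
        (f := fun r : ℝ => ⟪u (Complex.polarCoord.symm (r, θ) + a),
          Y (u (Complex.polarCoord.symm (r, θ) + b))⟫_ℂ)
        (B := fun r => 2 * π * G (Complex.polarCoord.symm (r, θ))) hρ0.le
        (fun r _ => by
          obtain ⟨D, hD, -⟩ := radial_deriv hB₁ hB₂ hA Y (fun p q => grp_comm hB _ _ p q) x' a b θ r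
          exact hD.continuousAt.continuousWithinAt)
        (fun r _ => by
          obtain ⟨D, hD, -⟩ := radial_deriv hB₁ hB₂ hA Y (fun p q => grp_comm hB _ _ p q) x' a b θ r
          exact hD.differentiableAt.differentiableWithinAt)
        (Eventually.of_forall fun r _ => by
          obtain ⟨D, hD, hD'⟩ :=
            radial_deriv hB₁ hB₂ hA Y (fun p q => grp_comm hB _ _ p q) x' a b θ r
          have := hD.deriv
          simp only [hu]
          rw [this]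
          exact hD')
        ((hcG.const_mul _).intervalIntegrable _ _)
      rw [intervalIntegral.integral_const_mul] at h5
      have h6 : (Complex.polarCoord.symm ((0 : ℝ), θ) : ℂ) = 0 := by simp
      simp only [h6] at h5
      have h7 := (Complex.re_le_norm _).trans h5
      rw [Complex.sub_re] at h7
      have h8 := hΦsq 0
      have h9 := hΦsq (Complex.polarCoord.symm (ρ, θ))
      rw [div_le_iff₀ (by positivity)]
      nlinarith)
    have hup : rayInt (fun z => ENNReal.ofReal (G z)) ≤ ENNReal.ofReal (ε ^ 2 / 2) := by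
      have hm : ∀ (K Z : H →L[ℂ] H) (a b : ℂ),
          Measurable fun τ => ‖⟪K (u (τ + a)), Z (u (τ + b))⟫_ℂ‖ₑ := by
        intro K Z a b
        have : Continuous fun τ => ⟪K (u (τ + a)), Z (u (τ + b))⟫_ℂ := by fun_prop
        exact this.enorm.measurable
      have e : (fun z => ENNReal.ofReal (G z)) = fun τ =>
          (‖⟪(A₁ - B₁) (u (τ + a)), Y (u (τ + b))⟫_ℂ‖ₑ +
            ‖⟪(A₂ - B₂) (u (τ + a)), Y (u (τ + b))⟫_ℂ‖ₑ) +
          (‖⟪(A₁ - B₁) (u (τ + b)), ContinuousLinearMap.adjoint Y (u (τ + a))⟫_ℂ‖ₑ +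
            ‖⟪(A₂ - B₂) (u (τ + b)), ContinuousLinearMap.adjoint Y (u (τ + a))⟫_ℂ‖ₑ) := by
        ext τ
        simp only [hG]
        rw [ENNReal.ofReal_add (by positivity) (by positivity),
          ENNReal.ofReal_add (by positivity) (by positivity),
          ENNReal.ofReal_add (by positivity) (by positivity)]
        simp only [ofReal_norm]
      rw [e, rayInt_add ((hm _ _ _ _).fun_add (hm _ _ _ _)), rayInt_add (hm _ _ _ _),
        rayInt_add (hm _ _ _ _)]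
      refine (add_le_add (add_le_add (hR₁ a b Y ha1 hYn) (hR₂ a b Y ha2 hYn))
        (add_le_add (hR₁ b a _ hb1 hYn') (hR₂ b a _ hb2 hYn'))).trans (le_of_eq ?_)
      rw [← ENNReal.ofReal_add (by positivity) (by positivity),
        ← ENNReal.ofReal_add (by positivity) (by positivity)]
      congr 1
      ring
    have hfin := hray.trans hup
    rw [← ENNReal.ofReal_mul (by positivity),
      ENNReal.ofReal_le_ofReal_iff (by positivity)] at hfin
    have h10 : Φ 0 ^ 2 ≤ ε ^ 2 := by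
      have : Φ 0 ^ 2 / (4 * π) * (2 * π) = Φ 0 ^ 2 / 2 := by field_simp; ring
      linarith
    have h11 : Φ 0 ≤ ε := (pow_le_pow_iff_left₀ (norm_nonneg _) hε.le two_ne_zero).1 h10
    simpa [hΦ, hu, h0] using h11
  apply cauchySeq_tendsto_of_complete
  rw [Metric.cauchySeq_iff]
  intro ε hε
  obtain ⟨f, hf, hfx⟩ := hac' x
  obtain ⟨x', hx', C, hC⟩ := cutoff (VV A₁ A₂) hV h0 x f hf hfx (ε / 4) (by positivity)
  obtain ⟨T, hT⟩ := hgood x' C hC (ε / 4) (by positivity)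
  refine ⟨T, fun t ht s hs => ?_⟩
  have h1 : ∀ t : ℝ, ‖grp B₁ B₂ (-t) 0 (grp A₁ A₂ t 0 x) - grp B₁ B₂ (-t) 0 (grp A₁ A₂ t 0 x')‖ ≤
      ε / 4 := by
    intro t
    rw [← map_sub, ← map_sub, grp_norm hB₁ hB₂ hB, grp_norm hA₁ hA₂ hA]
    exact hx'
  have h2 := dist_triangle4 (grp B₁ B₂ (-t) 0 (grp A₁ A₂ t 0 x))
    (grp B₁ B₂ (-t) 0 (grp A₁ A₂ t 0 x')) (grp B₁ B₂ (-s) 0 (grp A₁ A₂ s 0 x'))
    (grp B₁ B₂ (-s) 0 (grp A₁ A₂ s 0 x))
  have h3 := h1 t
  have h4 := h1 s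
  have h5 := hT s t hs ht
  rw [← dist_eq_norm] at h3 h4 h5
  rw [dist_comm] at h4
  linarith

end Pool.Agent.H78Z.WO
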